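import Pool.Agent.Y720.WA.Dbl

/-!
# Points of infinite order over function fields (helper720)
-/

set_option autoImplicit false
set_option linter.unusedVariables false
set_option linter.unusedSectionVars false

open WeierstrassCurve Filter Topology

namespace Pool.Agent.Y720.MZ

section poly

variable {K : Type*} [Field K] [CharZero K]

/-- the multiples by powers of two are different -/
theorem itd_ne {a b c N W : Polynomial K} {M : Type*} [Field M] [Algebra K M] {s₀ : M}
    (hW0 : W ≠ 0) (hW : Polynomial.aeval s₀ W = 0) (hN : Polynomial.aeval s₀ N ≠ 0) :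
    (∀ i, (itd a b c (N, 4 * W) i).2 ≠ 0) ∧ ∀ i j, i ≠ j →
      (itd a b c (N, 4 * W) i).1 * (itd a b c (N, 4 * W) j).2 -
        (itd a b c (N, 4 * W) j).1 * (itd a b c (N, 4 * W) i).2 ≠ 0 := by
  classical
  have : CharZero M := charZero_of_injective_algebraMap (algebraMap K M).injective
  set q : ℕ → Polynomial K × Polynomial K := fun i => itd a b c (N, 4 * W) i with hq
  set φ : Polynomial K →+* Polynomial M := Polynomial.mapRingHom (algebraMap K M) with hφ
  have hφi : Function.Injective φ := Polynomial.map_injective _ (algebraMap K M).injective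
  have hWM : φ W ≠ 0 := fun h => hW0 (hφi (by rw [h, map_zero]))
  have hWr : (φ W).IsRoot s₀ := by
    rw [Polynomial.IsRoot.def, hφ, Polynomial.coe_mapRingHom, Polynomial.eval_map_algebraMap]
    exact hW
  obtain ⟨E, hE, hE'⟩ := Polynomial.exists_eq_pow_rootMultiplicity_mul_and_not_dvd (φ W) hWM s₀
  set r := (φ W).rootMultiplicity s₀ with hr
  have hr0 : r ≠ 0 := (Polynomial.rootMultiplicity_pos hWM).2 hWr |>.ne'
  have hE0 : E.eval s₀ ≠ 0 := fun h => hE' (Polynomial.dvd_iff_isRoot.2 h)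
  set π : Polynomial M := (Polynomial.X - Polynomial.C s₀) ^ r with hπ
  have hπ0 : π ≠ 0 := pow_ne_zero _ (Polynomial.X_sub_C_ne_zero s₀)
  have hπe : π.eval s₀ = 0 := by
    rw [hπ, Polynomial.eval_pow, Polynomial.eval_sub, Polynomial.eval_X, Polynomial.eval_C,
      sub_self, zero_pow hr0]
  have hNM : (φ N).eval s₀ ≠ 0 := by
    rw [hφ, Polynomial.coe_mapRingHom, Polynomial.eval_map_algebraMap]
    exact hN
  have hD : φ (4 * W) = π * (4 * E) := by
    rw [map_mul, map_ofNat, hE]; ring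
  have hqφ : ∀ i, itd (φ a) (φ b) (φ c) (φ N, φ (4 * W)) i = (φ (q i).1, φ (q i).2) := fun i =>
    itd_map φ a b c (N, 4 * W) i
  choose G hG1 hG2 using fun i : ℕ => itd_pole (a := φ a) (b := φ b) (c := φ c) (N := φ N) hD i
  have hst := fun i => hG2 i (Polynomial.evalRingHom s₀) (by simpa using hπe) (by
    rw [Polynomial.coe_evalRingHom]; exact hNM)
  simp only [Polynomial.coe_evalRingHom] at hst
  have hst2 : ∀ i, ((φ (q i).1).eval s₀ ≠ 0) ∧ (G i).eval s₀ * (φ N).eval s₀ =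
      4 ^ i * (4 * E).eval s₀ * (φ (q i).1).eval s₀ := by
    intro i
    have := hst i
    rwa [hqφ i] at this
  have h4E : (4 * E).eval s₀ ≠ 0 := by
    rw [Polynomial.eval_mul]
    refine mul_ne_zero ?_ hE0
    simp
  have hG0 : ∀ i, (G i).eval s₀ ≠ 0 := by
    intro i h0
    have h1 := (hst2 i).2
    rw [h0, zero_mul] at h1
    exact mul_ne_zero (mul_ne_zero (pow_ne_zero i (by norm_num)) h4E) (hst2 i).1 h1.symm
  have hqG : ∀ i, φ (q i).2 = π * G i := by
    intro i
    have := hG1 i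
    rwa [hqφ i] at this
  refine ⟨fun i h0 => ?_, fun i j hij h0 => ?_⟩
  · have h1 := hqG i
    change (q i).2 = 0 at h0
    rw [h0, map_zero] at h1
    have h2 := (mul_eq_zero.1 h1.symm).resolve_left hπ0
    exact hG0 i (by rw [h2, Polynomial.eval_zero])
  · change (q i).1 * (q j).2 - (q j).1 * (q i).2 = 0 at h0
    have h2 := congrArg φ h0
    rw [map_sub, map_mul, map_mul, hqG, hqG, map_zero] at h2
    have h3 : π * (φ (q i).1 * G j - φ (q j).1 * G i) = 0 := by
      linear_combination h2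
    have h4 := (mul_eq_zero.1 h3).resolve_left hπ0
    have h5 := congrArg (Polynomial.eval s₀) h4
    rw [Polynomial.eval_sub, Polynomial.eval_mul, Polynomial.eval_mul, Polynomial.eval_zero] at h5
    obtain ⟨n1, m1⟩ := hst2 i
    obtain ⟨n2, m2⟩ := hst2 j
    have h6 : (4 : M) ^ i ≠ 4 ^ j := by
      intro h
      have h7 : ((4 ^ i : ℕ) : M) = ((4 ^ j : ℕ) : M) := by push_cast; exact h
      have h8 : (4 : ℕ) ^ i = 4 ^ j := Nat.cast_injective h7
      exact hij (Nat.pow_right_injective (le_refl 2 |>.trans (by norm_num)) h8)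
    have h8 : ((φ (q i).1).eval s₀ * (φ (q j).1).eval s₀ * (4 * E).eval s₀) * (4 ^ j - 4 ^ i) = 0 := by
      linear_combination (φ N).eval s₀ * h5 - (φ (q i).1).eval s₀ * m2 + (φ (q j).1).eval s₀ * m1
    exact mul_ne_zero (mul_ne_zero (mul_ne_zero n1 n2) h4E) (sub_ne_zero.2 h6.symm) h8

/-- **Infinite order over the function field.** -/
theorem io_function {F : Type*} [Field F] [CharZero F] [DecidableEq F] (ι : Polynomial K →+* F)
    (hι : Function.Injective ι) {M : Type*} [Field M] [Algebra K M] {s₀ : M}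
    {w q₁ q₂ q₃ q₄ : Polynomial K} (hw0 : w ≠ 0) (hw : Polynomial.aeval s₀ w = 0)
    (hq : Polynomial.aeval s₀ q₁ ≠ 0)
    (h : (cv (ι q₂) (rb (ι w) (ι q₁) (ι q₃) (ι q₄)) (rc (ι w) (ι q₁) (ι q₂) (ι q₃) (ι q₄))).toAffine.Nonsingular
      (xs (ι w) (ι q₁) (ι q₂)) (ys (ι w) (ι q₁) (ι q₂) (ι q₃))) (n : ℕ) (hn : n ≠ 0) :
    n • (.some (xs (ι w) (ι q₁) (ι q₂)) (ys (ι w) (ι q₁) (ι q₂) (ι q₃)) h :
      Pt (ι q₂) (rb (ι w) (ι q₁) (ι q₃) (ι q₄)) (rc (ι w) (ι q₁) (ι q₂) (ι q₃) (ι q₄))) ≠ 0 := by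
  set B : Polynomial K := rb w q₁ q₃ q₄ with hB
  set C : Polynomial K := rc w q₁ q₂ q₃ q₄ with hC
  set N : Polynomial K := q₁ ^ 2 - 4 * w ^ 2 * q₂ with hN
  have hN0 : Polynomial.aeval s₀ N ≠ 0 := by
    rw [hN, map_sub, map_mul, map_mul, map_pow, map_pow, hw]
    simpa using hq
  obtain ⟨h1, h2⟩ := itd_ne (a := q₂) (b := B) (c := C) (N := N) (W := w ^ 2) (s₀ := s₀)
    (pow_ne_zero 2 hw0) (by rw [map_pow, hw, zero_pow two_ne_zero]) hN0
  have eB : rb (ι w) (ι q₁) (ι q₃) (ι q₄) = ι B := by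
    rw [hB]; simp only [rb, map_sub, map_mul, map_pow, map_ofNat]
  have eC : rc (ι w) (ι q₁) (ι q₂) (ι q₃) (ι q₄) = ι C := by
    rw [hC]; simp only [rc, map_sub, map_add, map_mul, map_pow, map_ofNat]
  have hι0 : ∀ x : Polynomial K, x ≠ 0 → ι x ≠ 0 := fun x hx h0 => hx (hι (by rw [h0, map_zero]))
  have hmap := fun i => itd_map ι q₂ B C (N, 4 * w ^ 2) i
  refine nontor_of_itd (N := ι N) (D := ι (4 * w ^ 2)) (M := n) h ?_ ?_ ?_ n hn le_rfl
  · have := hι0 _ hw0
    rw [xs, hN]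
    simp only [map_sub, map_mul, map_pow, map_ofNat]
    field_simp
  · intro i _
    rw [eB, eC, hmap]
    exact hι0 _ (h1 i)
  · intro i _ j _ hij
    rw [eB, eC, hmap, hmap]
    dsimp only
    rw [← map_mul, ← map_mul, ← map_sub]
    exact hι0 _ (h2 i j hij)

end poly

end Pool.Agent.Y720.MZ
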