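import Pool.Agent.Y720.WG.T8

/-!
# Quadric bundles of bidegree (2, 3) over projective spaces (helper720)
-/

set_option autoImplicit false
set_option linter.unusedVariables false
set_option linter.unusedSectionVars false

namespace Pool.Agent.Y720.MZ

variable {K : Type*} [Field K] [NumberField K]

theorem density_pt (c : Fin 6 → Fin 10 → K) (h0 : c 0 0 = 0) (h1 : c 1 0 = 0) (h2 : c 2 0 = 1)
    (h3 : c 3 0 ≠ 0) (hg : c 0 2 ≠ 0) (hfl : flexv (c 0) ≠ 0)
    (hsep : (tanPol (c 0)).Separable) (hdeg : 3 ≤ (tanPol (c 0)).natDegree)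
    (hdir : ∃ x₁ x₂ : AlgebraicClosure K, x₁ ≠ 0 ∧ cof c 0 x₁ x₂ = 0 ∧
      cof c 1 x₁ x₂ * algebraMap K _ (c 0 2) ≠ algebraMap K _ (c 0 1) * cof c 2 x₁ x₂)
    (hflex : ∃ x₁ x₂ : AlgebraicClosure K, x₁ ≠ 0 ∧ cof c 0 x₁ x₂ = 0 ∧ cof c 2 x₁ x₂ ≠ 0 ∧
      flexv (fun k => cof c k x₁ x₂) = 0 ∧ cubv (fun k => cof c k x₁ x₂) ≠ 0)
    {ρ : MvPolynomial (Fin 3) K} (hρ : ρ ≠ 0) :
    ∃ x₁ x₂ y₁ y₂ : K, vF c x₁ x₂ y₁ y₂ = 0 ∧ MvPolynomial.eval ![x₂, y₁, y₂] ρ ≠ 0 := by
  classical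
  -- the conditions over the conic
  have hA : (th3 c).A ≠ 0 := by
    intro h
    have k1 : Polynomial.aeval (0 : K) (th3 c).A = (c 3 0 ^ 2) ^ 3 * flexv (c 0) := by
      have : (th3 c).A = ch c 3 * ch c 2 ^ 2 - ch c 4 * ch c 1 * ch c 2 + ch c 5 * ch c 1 ^ 2 := rfl
      rw [this]
      simp only [map_add, map_sub, map_mul, map_pow, ch_at_zero c h3, flexv]
      ring
    rw [h, map_zero] at k1
    exact (mul_ne_zero (pow_ne_zero 3 (pow_ne_zero 2 h3)) hfl) k1.symm
  have hD : (th3 c).D ≠ 0 := th3_D c h3 hg hsep hdeg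
  have hμ : ∀ ρ : K, (th3 c).g1 + Polynomial.C ρ * (th3 c).g2 ≠ 0 := by
    intro ρ h
    change ch c 1 + Polynomial.C ρ * ch c 2 = 0 at h
    obtain ⟨x₁, x₂, hx, hc, hne⟩ := hdir
    obtain ⟨Q, hQ, hk⟩ := conic_pt c h0 h1 h2 h3 hx hc
    have k1 := congrArg (Polynomial.aeval (x₂ / x₁)) h
    rw [map_add, map_mul, map_zero, hk, hk, Polynomial.aeval_C] at k1
    have k2 : cof c 1 x₁ x₂ + algebraMap K _ ρ * cof c 2 x₁ x₂ = 0 := by
      have : Q * (cof c 1 x₁ x₂ + algebraMap K _ ρ * cof c 2 x₁ x₂) = 0 := by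
        linear_combination k1
      exact (mul_eq_zero.1 this).resolve_left hQ
    have k3 := congrArg (Polynomial.aeval (0 : K)) h
    rw [map_add, map_mul, map_zero, ch_at_zero c h3, ch_at_zero c h3, Polynomial.aeval_C] at k3
    have k4 : c 0 1 + ρ * c 0 2 = 0 := by
      have : c 3 0 ^ 2 * (c 0 1 + ρ * c 0 2) = 0 := by
        rw [Algebra.algebraMap_self, RingHom.id_apply] at k3
        linear_combination k3
      exact (mul_eq_zero.1 this).resolve_left (pow_ne_zero 2 h3)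
    have k5 := congrArg (algebraMap K (AlgebraicClosure K)) k4
    rw [map_add, map_mul, map_zero] at k5
    apply hne
    linear_combination algebraMap K (AlgebraicClosure K) (c 0 2) * k2 -
      cof c 2 x₁ x₂ * k5
  obtain ⟨x₁, x₂, hx, hc, hn2, hf0, hb0⟩ := hflex
  obtain ⟨Q, hQ, hk⟩ := conic_pt c h0 h1 h2 h3 hx hc
  have hA0 : Polynomial.aeval (x₂ / x₁) (th3 c).A = 0 := by
    have : (th3 c).A = ch c 3 * ch c 2 ^ 2 - ch c 4 * ch c 1 * ch c 2 + ch c 5 * ch c 1 ^ 2 := rfl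
    rw [this]
    simp only [map_add, map_sub, map_mul, map_pow, hk]
    simp only [flexv] at hf0
    linear_combination Q ^ 3 * hf0
  have hB0 : Polynomial.aeval (x₂ / x₁) (th3 c).B ≠ 0 := by
    have : (th3 c).B = ch c 6 * ch c 2 ^ 3 - ch c 7 * ch c 2 ^ 2 * ch c 1 +
      ch c 8 * ch c 2 * ch c 1 ^ 2 - ch c 9 * ch c 1 ^ 3 := rfl
    rw [this]
    simp only [map_add, map_sub, map_mul, map_pow, hk]
    intro h
    apply mul_ne_zero (pow_ne_zero 4 hQ) hb0
    simp only [cubv]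
    linear_combination h
  have hg0 : Polynomial.aeval (x₂ / x₁) (th3 c).g2 ≠ 0 := by
    change Polynomial.aeval (x₂ / x₁) (ch c 2) ≠ 0
    rw [hk]
    exact mul_ne_zero hQ hn2
  exact kpoint c h0 h1 h2 h3 hA hA0 hB0 hg0 hD hμ hρ

/-- the point of a four dimensional space -/
def ppt {α β : Type*} (u : α → K) (w w' : β → K) (s t a b : K) : Option (α ⊕ β) → K :=
  fun o => o.elim s (Sum.elim (fun i => t * u i) (fun j => a * w j + b * w' j))

/-- **Density from the four dimensional sections.** -/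
theorem density_gen {α β : Type*} (P : (Fin 6 → Fin 10 → K) → Prop)
    (hP0 : ∀ c, P c → c 0 0 = 0 ∧ c 1 0 = 0 ∧ c 2 0 = 1 ∧ c 3 0 ≠ 0)
    (hP : ∀ c, P c → ∀ ρ : MvPolynomial (Fin 3) K, ρ ≠ 0 →
      ∃ x₁ x₂ y₁ y₂ : K, vF c x₁ x₂ y₁ y₂ = 0 ∧ MvPolynomial.eval ![x₂, y₁, y₂] ρ ≠ 0)
    {F : MvPolynomial (Option (α ⊕ β)) K} (hF : Irreducible F)
    {h : MvPolynomial (α ⊕ (β ⊕ β)) K} (hh : h ≠ 0)
    (hgen : ∀ (u : α → K) (w w' : β → K),
      MvPolynomial.eval (Sum.elim u (Sum.elim w w')) h ≠ 0 → ∃ (l : K) (c : Fin 6 → Fin 10 → K),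
        P c ∧ ∀ s t a b : K, l * MvPolynomial.eval (ppt u w w' s t a b) F = vF c s t a b)
    {G : MvPolynomial (Option (α ⊕ β)) K} (hG : ∀ z : Option (α ⊕ β) → K,
      MvPolynomial.eval z F = 0 → MvPolynomial.eval z G = 0) : F ∣ G := by
  classical
  by_contra hnd
  set E := MvPolynomial.optionEquivLeft K (α ⊕ β) with hE
  have hev : ∀ (s : K) (y : α ⊕ β → K) (f : MvPolynomial (Option (α ⊕ β)) K),
      Polynomial.eval s ((E f).map (MvPolynomial.eval y)) =
        MvPolynomial.eval (fun o => o.elim s y) f := by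
    intro s y f
    induction f using MvPolynomial.induction_on with
    | C a =>
      rw [hE, MvPolynomial.optionEquivLeft_C, Polynomial.map_C, Polynomial.eval_C,
        MvPolynomial.eval_C, MvPolynomial.eval_C]
    | add p q hp hq => rw [map_add, Polynomial.map_add, Polynomial.eval_add, hp, hq, map_add]
    | mul_X p o hp =>
      rw [map_mul, Polynomial.map_mul, Polynomial.eval_mul, hp, map_mul, MvPolynomial.eval_X]
      congr 1
      cases o with
      | none => rw [hE, MvPolynomial.optionEquivLeft_X_none]; simp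
      | some o => rw [hE, MvPolynomial.optionEquivLeft_X_some]; simp
  have hf : Irreducible (E F) := (MulEquiv.irreducible_iff E.toMulEquiv).2 hF
  -- a good choice
  have choose : ∀ g : MvPolynomial (α ⊕ (β ⊕ β)) K, g ≠ 0 → ∃ (u : α → K) (w w' : β → K),
      MvPolynomial.eval (Sum.elim u (Sum.elim w w')) g ≠ 0 := by
    intro g hg
    by_contra hcon
    push Not at hcon
    apply hg
    apply MvPolynomial.funext
    intro x
    rw [map_zero]
    have := hcon (x ∘ Sum.inl) (x ∘ Sum.inr ∘ Sum.inl) (x ∘ Sum.inr ∘ Sum.inr)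
    have e : x = Sum.elim (x ∘ Sum.inl) (Sum.elim (x ∘ Sum.inr ∘ Sum.inl)
        (x ∘ Sum.inr ∘ Sum.inr)) := by
      funext i
      rcases i with i | i | i <;> rfl
    rw [e]
    exact this
  have hfd : (E F).natDegree ≠ 0 := by
    intro hd
    obtain ⟨u, w, w', huw⟩ := choose h hh
    obtain ⟨l, c, hc, hl⟩ := hgen u w w' huw
    obtain ⟨h0, h1, h2, h3⟩ := hP0 c hc
    obtain ⟨r, hr⟩ := Polynomial.natDegree_eq_zero.1 hd
    have e1 : ∀ s : K, MvPolynomial.eval (ppt u w w' s 0 0 0) F = MvPolynomial.eval 0 r := by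
      intro s
      have e5 : ppt u w w' s 0 0 0 = fun o => o.elim s (0 : α ⊕ β → K) := by
        funext o
        rcases o with _ | o | o
        · rfl
        · simp [ppt]
        · simp [ppt]
      rw [e5, ← hev, ← hr, Polynomial.map_C, Polynomial.eval_C]
    have e4 : ∀ t : K, vF c t 0 0 0 = c 3 0 * t ^ 2 := by
      intro t
      rw [vF_cof]
      rw [Finset.sum_eq_single 0]
      · unfold cof
        simp only [Fin.sum_univ_succ, Fin.sum_univ_zero]
        simp [mx, my, h0, h1, h2, Fin.succ]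
      · intro k _ hk
        have : my (0 : K) 0 k = 0 := by
          fin_cases k <;> simp [my] at hk ⊢
        rw [this, mul_zero]
      · intro h; exact absurd (Finset.mem_univ _) h
    have e2 := hl 0 0 0 0
    have e3 := hl 1 0 0 0
    rw [e1, e4] at e2 e3
    rw [e2] at e3
    apply h3
    linear_combination -e3
  have hgd : ¬ E F ∣ E G := fun h => hnd ((map_dvd_iff E).1 h)
  obtain ⟨a, b, ρ, hρ, hab⟩ := gauss hf hfd hgd
  have hi : Function.Injective (Sum.map id Sum.inl : α ⊕ β → α ⊕ (β ⊕ β)) :=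
    Function.injective_id.sumMap Sum.inl_injective
  have hρ' : MvPolynomial.rename (Sum.map id Sum.inl : α ⊕ β → α ⊕ (β ⊕ β)) ρ ≠ 0 := by
    intro h0
    exact hρ (MvPolynomial.rename_injective _ hi (by rw [h0, map_zero]))
  obtain ⟨u, w, w', huw⟩ := choose _ (mul_ne_zero hh hρ')
  rw [map_mul] at huw
  obtain ⟨l, c, hc, hl⟩ := hgen u w w' (left_ne_zero_of_mul huw)
  have hr2 := right_ne_zero_of_mul huw
  rw [MvPolynomial.eval_rename] at hr2
  set ρ' : MvPolynomial (Fin 3) K := MvPolynomial.aeval (Sum.elim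
    (fun i => MvPolynomial.X 0 * MvPolynomial.C (u i))
    (fun j => MvPolynomial.X 1 * MvPolynomial.C (w j) +
      MvPolynomial.X 2 * MvPolynomial.C (w' j)) : α ⊕ β → MvPolynomial (Fin 3) K) ρ with hρ'd
  have hρe : ∀ t a b : K, MvPolynomial.eval ![t, a, b] ρ' =
      MvPolynomial.eval (Sum.elim (fun i => t * u i) (fun j => a * w j + b * w' j)) ρ := by
    intro t a b
    rw [hρ'd, ← MvPolynomial.coe_aeval_eq_eval, ← MvPolynomial.coe_aeval_eq_eval]
    have : ((MvPolynomial.aeval ![t, a, b]).comp (MvPolynomial.aeval (Sum.elim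
      (fun i => MvPolynomial.X 0 * MvPolynomial.C (u i))
      (fun j => MvPolynomial.X 1 * MvPolynomial.C (w j) +
        MvPolynomial.X 2 * MvPolynomial.C (w' j)) : α ⊕ β → MvPolynomial (Fin 3) K)) :
        MvPolynomial (α ⊕ β) K →ₐ[K] K) =
        MvPolynomial.aeval (Sum.elim (fun i => t * u i) (fun j => a * w j + b * w' j)) := by
      apply MvPolynomial.algHom_ext
      intro i
      rcases i with i | i <;> simp
    exact congrArg (fun g : MvPolynomial (α ⊕ β) K →ₐ[K] K => g ρ) this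
  have hρ0 : ρ' ≠ 0 := by
    intro h0
    apply hr2
    have := hρe 1 1 0
    rw [h0, map_zero] at this
    rw [this]
    congr 2
    funext i
    rcases i with i | i <;> simp
  obtain ⟨z₁, z₂, y₁, y₂, k1, k2⟩ := hP c hc ρ' hρ0
  have hl0 : l ≠ 0 := by
    intro h0
    obtain ⟨g0, g1, g2, g3⟩ := hP0 c hc
    have e4 : ∀ t : K, vF c t 0 0 0 = c 3 0 * t ^ 2 := by
      intro t
      rw [vF_cof]
      rw [Finset.sum_eq_single 0]
      · unfold cof
        simp only [Fin.sum_univ_succ, Fin.sum_univ_zero]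
        simp [mx, my, g0, g1, g2, Fin.succ]
      · intro k _ hk
        have : my (0 : K) 0 k = 0 := by
          fin_cases k <;> simp [my] at hk ⊢
        rw [this, mul_zero]
      · intro h; exact absurd (Finset.mem_univ _) h
    have e3 := hl 1 0 0 0
    rw [h0, e4] at e3
    apply g3
    linear_combination -e3
  rw [← hl] at k1
  have k0 := (mul_eq_zero.1 k1).resolve_left hl0
  have k3 := hG _ k0
  rw [hρe] at k2
  have k4 := congrArg (fun f => Polynomial.eval z₁ (f.map (MvPolynomial.eval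
    (Sum.elim (fun i => z₂ * u i) (fun j => y₁ * w j + y₂ * w' j))))) hab
  simp only [Polynomial.map_add, Polynomial.map_mul, Polynomial.eval_add, Polynomial.eval_mul,
    Polynomial.map_C, Polynomial.eval_C] at k4
  rw [hev, hev] at k4
  change MvPolynomial.eval (ppt u w w' z₁ z₂ y₁ y₂) F * _ +
    MvPolynomial.eval (ppt u w w' z₁ z₂ y₁ y₂) G * _ = _ at k4
  rw [k0, k3, zero_mul, zero_mul, add_zero] at k4
  exact k2 k4.symm

end Pool.Agent.Y720.MZ
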