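import Pool.Agent.Y720.WG.T10

/-!
# Nondegeneracy is an open condition, along lines (helper720)
-/

set_option autoImplicit false
set_option linter.unusedVariables false
set_option linter.unusedSectionVars false

namespace Pool.Agent.Y720.MZ

section ring

variable {R : Type*} [CommRing R] (c : Fin 6 → Fin 10 → R)

open Polynomial in
noncomputable def qhR : Polynomial R := C (c 3 0) + C (c 4 0) * X + C (c 5 0) * X ^ 2

open Polynomial in
noncomputable def mhR : Fin 6 → Polynomial R :=
  ![qhR c ^ 2, -(X * qhR c), -(X ^ 2 * qhR c), X ^ 2, X ^ 3, X ^ 4]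

noncomputable def chR (k : Fin 10) : Polynomial R := ∑ i, Polynomial.C (c i k) * mhR c i

noncomputable def thR : Cb (Polynomial R) :=
  ⟨chR c 1, chR c 2, chR c 3, chR c 4, chR c 5, chR c 6, chR c 7, chR c 8, chR c 9⟩

variable {K : Type*} [Field K] (φ : R →+* K)

lemma qhR_map : (qhR c).map φ = qh (fun i k => φ (c i k)) := by
  simp [qhR, qh]

lemma mhR_map (i : Fin 6) : (mhR c i).map φ = mh (fun i k => φ (c i k)) i := by
  fin_cases i
  · simp [mhR, mh, qhR_map]
  · simp [mhR, mh, qhR_map]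
  · simp [mhR, mh, qhR_map]
  · simp [mhR, mh]
  · simp [mhR, mh]
  · simp [mhR, mh]

lemma chR_map (k : Fin 10) : (chR c k).map φ = ch (fun i k => φ (c i k)) k := by
  unfold chR ch
  rw [Polynomial.map_sum]
  refine Finset.sum_congr rfl fun i _ => ?_
  rw [Polynomial.map_mul, Polynomial.map_C, mhR_map]

lemma thR_map : (thR c).map (Polynomial.mapRingHom φ) = th3 (fun i k => φ (c i k)) := by
  simp only [thR, Cb.map, th3, Polynomial.coe_mapRingHom, chR_map]

end ring

section line

variable {K : Type*} [Field K] [NumberField K]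

/-- the conditions for the existence of points -/
structure Gd (c : Fin 6 → Fin 10 → K) : Prop where
  h3 : c 3 0 ≠ 0
  hA : (th3 c).A ≠ 0
  hs : ∃ s₀ : AlgebraicClosure K, Polynomial.aeval s₀ (th3 c).A = 0 ∧
    Polynomial.aeval s₀ (th3 c).B ≠ 0 ∧ Polynomial.aeval s₀ (th3 c).g2 ≠ 0
  hD : (th3 c).D ≠ 0
  hμ : ∀ ρ : K, (th3 c).g1 + Polynomial.C ρ * (th3 c).g2 ≠ 0

lemma Gd.pt {c : Fin 6 → Fin 10 → K} (h : Gd c) (h0 : c 0 0 = 0) (h1 : c 1 0 = 0)
    (h2 : c 2 0 = 1) {ρ : MvPolynomial (Fin 3) K} (hρ : ρ ≠ 0) :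
    ∃ x₁ x₂ y₁ y₂ : K, vF c x₁ x₂ y₁ y₂ = 0 ∧ MvPolynomial.eval ![x₂, y₁, y₂] ρ ≠ 0 := by
  obtain ⟨s₀, k1, k2, k3⟩ := h.hs
  exact kpoint c h0 h1 h2 h.h3 h.hA k1 k2 k3 h.hD h.hμ hρ

theorem line_good (c : Fin 6 → Fin 10 → Polynomial K)
    (h : Gd (fun i k => (c i k).eval 0)) :
    ∃ r : Polynomial K, r ≠ 0 ∧ ∀ τ : K, r.eval τ ≠ 0 → Gd (fun i k => (c i k).eval τ) := by
  classical
  set M := AlgebraicClosure K
  obtain ⟨h3, hA, ⟨s₀, k1, k2, k3⟩, hD, hμ⟩ := h
  have hmap : ∀ τ : K, (thR c).map (Polynomial.mapRingHom (Polynomial.evalRingHom τ)) =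
      th3 (fun i k => (c i k).eval τ) := fun τ => thR_map c (Polynomial.evalRingHom τ)
  have mA : ∀ τ : K, (thR c).A.map (Polynomial.evalRingHom τ) =
      (th3 (fun i k => (c i k).eval τ)).A := by
    intro τ
    rw [← hmap, Cb.map_A, Polynomial.coe_mapRingHom]
  have mB : ∀ τ : K, (thR c).B.map (Polynomial.evalRingHom τ) =
      (th3 (fun i k => (c i k).eval τ)).B := by
    intro τ
    rw [← hmap, Cb.map_B, Polynomial.coe_mapRingHom]
  have mD : ∀ τ : K, (thR c).D.map (Polynomial.evalRingHom τ) =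
      (th3 (fun i k => (c i k).eval τ)).D := by
    intro τ
    rw [← hmap, Cb.map_D, Polynomial.coe_mapRingHom]
  have mg1 : ∀ τ : K, (thR c).g1.map (Polynomial.evalRingHom τ) =
      (th3 (fun i k => (c i k).eval τ)).g1 := by
    intro τ
    rw [← hmap]; rfl
  have mg2 : ∀ τ : K, (thR c).g2.map (Polynomial.evalRingHom τ) =
      (th3 (fun i k => (c i k).eval τ)).g2 := by
    intro τ
    rw [← hmap]; rfl
  set 𝒜 := (thR c).A with h𝒜
  set H := (thR c).B * (thR c).g2 with hH
  have h𝒜0 : 𝒜 ≠ 0 := by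
    intro h
    apply hA
    rw [← mA 0, h, Polynomial.map_zero]
  have hD0 : (thR c).D ≠ 0 := by
    intro h
    apply hD
    rw [← mD 0, h, Polynomial.map_zero]
  -- the evaluation
  let ev : Polynomial (Polynomial K) →+* M :=
    (Polynomial.aeval s₀ : Polynomial K →ₐ[K] M).toRingHom.comp
      (Polynomial.mapRingHom (Polynomial.evalRingHom (0 : K)))
  have hev : ∀ P, ev P = Polynomial.aeval s₀ (P.map (Polynomial.evalRingHom (0 : K))) :=
    fun P => rfl
  have hevA : ev 𝒜 = 0 := by rw [hev, mA]; exact k1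
  have hevH : ev H ≠ 0 := by
    rw [hev, hH, Polynomial.map_mul, map_mul, mB, mg2]
    exact mul_ne_zero k2 k3
  obtain ⟨fs, hfs, u, hu⟩ := WfDvdMonoid.exists_factors 𝒜 h𝒜0
  have h1 : ev fs.prod = 0 := by
    have h2 : ev fs.prod * ev u = 0 := by rw [← map_mul, hu]; exact hevA
    exact (mul_eq_zero.1 h2).resolve_right (u.isUnit.map ev).ne_zero
  rw [map_multiset_prod, Multiset.prod_eq_zero_iff, Multiset.mem_map] at h1
  obtain ⟨f, hf, hf0⟩ := h1
  have hfi := hfs f hf
  have hfd : f ∣ 𝒜 := by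
    rw [← hu]
    exact (Multiset.dvd_prod hf).mul_right _
  have hdeg : f.natDegree ≠ 0 := by
    intro hd
    obtain ⟨r, hr⟩ := Polynomial.natDegree_eq_zero.1 hd
    have h2 : r.eval 0 = 0 := by
      rw [hev, ← hr, Polynomial.map_C, Polynomial.aeval_C] at hf0
      exact (algebraMap K M).injective (by rw [map_zero]; exact hf0)
    obtain ⟨g, hg⟩ := hfd
    apply hA
    rw [← mA 0, hg, Polynomial.map_mul, ← hr, Polynomial.map_C]
    simp [h2]
  have hfH : ¬ f ∣ H := by
    rintro ⟨g, hg⟩
    apply hevH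
    rw [hg, map_mul, hf0, zero_mul]
  obtain ⟨a, b, ρ, hρ, hab⟩ := gauss hfi hdeg hfH
  -- the minors
  have hg2 : (th3 (fun i k => (c i k).eval 0)).g2 ≠ 0 := by
    intro h; rw [h, map_zero] at k3; exact k3 rfl
  obtain ⟨j, hj⟩ : ∃ j, (th3 (fun i k => (c i k).eval 0)).g2.coeff j ≠ 0 := by
    by_contra hcon
    push Not at hcon
    exact hg2 (Polynomial.ext fun j => by rw [hcon, Polynomial.coeff_zero])
  set g1 := (th3 (fun i k => (c i k).eval 0)).g1 with hg1
  set g2 := (th3 (fun i k => (c i k).eval 0)).g2 with hg2'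
  obtain ⟨i, hi⟩ : ∃ i, g1.coeff i * g2.coeff j - g1.coeff j * g2.coeff i ≠ 0 := by
    by_contra hcon
    push Not at hcon
    apply hμ (-(g1.coeff j / g2.coeff j))
    apply Polynomial.ext
    intro i
    rw [Polynomial.coeff_add, Polynomial.coeff_C_mul, Polynomial.coeff_zero]
    have h2 := hcon i
    field_simp
    linear_combination h2
  set r5 : Polynomial K := (thR c).g1.coeff i * (thR c).g2.coeff j -
    (thR c).g1.coeff j * (thR c).g2.coeff i with hr5
  have hr5e : ∀ τ : K, r5.eval τ = (th3 (fun i k => (c i k).eval τ)).g1.coeff i *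
      (th3 (fun i k => (c i k).eval τ)).g2.coeff j -
      (th3 (fun i k => (c i k).eval τ)).g1.coeff j *
      (th3 (fun i k => (c i k).eval τ)).g2.coeff i := by
    intro τ
    rw [← mg1, ← mg2, hr5, Polynomial.eval_sub, Polynomial.eval_mul, Polynomial.eval_mul]
    simp only [Polynomial.coeff_map, Polynomial.coe_evalRingHom]
  have hr5n : r5 ≠ 0 := by
    intro h
    apply hi
    rw [hg1, hg2', ← hr5e, h, Polynomial.eval_zero]
  have hc3 : c 3 0 ≠ 0 := by
    intro h
    apply h3
    change (c 3 0).eval 0 = 0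
    rw [h, Polynomial.eval_zero]
  refine ⟨ρ * f.leadingCoeff * 𝒜.leadingCoeff * (thR c).D.leadingCoeff * c 3 0 * r5, ?_, ?_⟩
  · refine mul_ne_zero (mul_ne_zero (mul_ne_zero (mul_ne_zero (mul_ne_zero hρ ?_) ?_) ?_) hc3) hr5n
    · exact Polynomial.leadingCoeff_ne_zero.2 hfi.ne_zero
    · exact Polynomial.leadingCoeff_ne_zero.2 h𝒜0
    · exact Polynomial.leadingCoeff_ne_zero.2 hD0
  · intro τ hτ
    simp only [Polynomial.eval_mul] at hτ
    have t6 := right_ne_zero_of_mul hτ
    have t5 := right_ne_zero_of_mul (left_ne_zero_of_mul hτ)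
    have t4 := right_ne_zero_of_mul (left_ne_zero_of_mul (left_ne_zero_of_mul hτ))
    have t3 := right_ne_zero_of_mul (left_ne_zero_of_mul (left_ne_zero_of_mul
      (left_ne_zero_of_mul hτ)))
    have t2 := right_ne_zero_of_mul (left_ne_zero_of_mul (left_ne_zero_of_mul
      (left_ne_zero_of_mul (left_ne_zero_of_mul hτ))))
    have t1 := left_ne_zero_of_mul (left_ne_zero_of_mul (left_ne_zero_of_mul
      (left_ne_zero_of_mul (left_ne_zero_of_mul hτ))))
    refine ⟨t5, ?_, ?_, ?_, ?_⟩
    · rw [← mA]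
      intro h
      apply t3
      have := congrArg (fun P : Polynomial K => P.coeff 𝒜.natDegree) h
      simpa [Polynomial.coeff_map] using this
    · have hfτ : (f.map (Polynomial.evalRingHom τ)).natDegree = f.natDegree :=
        Polynomial.natDegree_map_of_leadingCoeff_ne_zero _ t2
      obtain ⟨s, hs⟩ := IsAlgClosed.exists_aeval_eq_zero M (f.map (Polynomial.evalRingHom τ))
        (by
          intro h
          apply hdeg
          rw [← hfτ]
          exact Polynomial.natDegree_eq_of_degree_eq_some h)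
      have e1 := congrArg (fun P : Polynomial (Polynomial K) =>
        Polynomial.aeval s (P.map (Polynomial.evalRingHom τ))) hab
      simp only [Polynomial.map_add, Polynomial.map_mul, map_add, map_mul, hs, zero_mul, zero_add,
        Polynomial.map_C, Polynomial.aeval_C, hH, mB, mg2] at e1
      have e2 : (algebraMap K M) ((Polynomial.evalRingHom τ) ρ) ≠ 0 := by
        intro h
        apply t1
        exact (algebraMap K M).injective (by rw [map_zero]; exact h)
      rw [← e1] at e2
      have e3 := left_ne_zero_of_mul e2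
      refine ⟨s, ?_, left_ne_zero_of_mul e3, right_ne_zero_of_mul e3⟩
      obtain ⟨g, hg⟩ := hfd
      rw [← mA, hg, Polynomial.map_mul, map_mul, hs, zero_mul]
    · rw [← mD]
      intro h
      apply t4
      have := congrArg (fun P : Polynomial K => P.coeff (thR c).D.natDegree) h
      simpa [Polynomial.coeff_map] using this
    · intro ρ' h
      apply t6
      rw [hr5e]
      have e1 : ∀ n, (th3 (fun i k => (c i k).eval τ)).g1.coeff n =
          -ρ' * (th3 (fun i k => (c i k).eval τ)).g2.coeff n := by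
        intro n
        have := congrArg (fun P : Polynomial K => P.coeff n) h
        simp only [Polynomial.coeff_add, Polynomial.coeff_C_mul, Polynomial.coeff_zero] at this
        linear_combination this
      rw [e1 i, e1 j]
      ring

end line

end Pool.Agent.Y720.MZ
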