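import Pool.Agent.Y720.WG.T11

/-!
# Quadric bundles of bidegree (2, 3): one nondegenerate section suffices (helper720)
-/

set_option autoImplicit false
set_option linter.unusedVariables false
set_option linter.unusedSectionVars false

namespace Pool.Agent.Y720.MZ

variable {K : Type*} [Field K] [NumberField K]

theorem gd_of (c : Fin 6 → Fin 10 → K) (h0 : c 0 0 = 0) (h1 : c 1 0 = 0) (h2 : c 2 0 = 1)
    (h3 : c 3 0 ≠ 0) (hg : c 0 2 ≠ 0) (hfl : flexv (c 0) ≠ 0)
    (hsep : (tanPol (c 0)).Separable) (hdeg : 3 ≤ (tanPol (c 0)).natDegree)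
    (hdir : ∃ x₁ x₂ : AlgebraicClosure K, x₁ ≠ 0 ∧ cof c 0 x₁ x₂ = 0 ∧
      cof c 1 x₁ x₂ * algebraMap K _ (c 0 2) ≠ algebraMap K _ (c 0 1) * cof c 2 x₁ x₂)
    (hflex : ∃ x₁ x₂ : AlgebraicClosure K, x₁ ≠ 0 ∧ cof c 0 x₁ x₂ = 0 ∧ cof c 2 x₁ x₂ ≠ 0 ∧
      flexv (fun k => cof c k x₁ x₂) = 0 ∧ cubv (fun k => cof c k x₁ x₂) ≠ 0) : Gd c := by
  classical
  -- the conditions over the conic
  have hA : (th3 c).A ≠ 0 := by
    intro h
    have k1 : Polynomial.aeval (0 : K) (th3 c).A = (c 3 0 ^ 2) ^ 3 * flexv (c 0) := by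
      have : (th3 c).A = ch c 3 * ch c 2 ^ 2 - ch c 4 * ch c 1 * ch c 2 + ch c 5 * ch c 1 ^ 2 := rfl
      rw [this]
      simp only [map_add, map_sub, map_mul, map_pow, ch_at_zero c h3, flexv]
      ring
    rw [h, map_zero] at k1
    exact (mul_ne_zero (pow_ne_zero 3 (pow_ne_zero 2 h3)) hfl) k1.symm
  have hD : (th3 c).D ≠ 0 := th3_D c h3 hg hsep hdeg
  have hμ : ∀ ρ : K, (th3 c).g1 + Polynomial.C ρ * (th3 c).g2 ≠ 0 := by
    intro ρ h
    change ch c 1 + Polynomial.C ρ * ch c 2 = 0 at h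
    obtain ⟨x₁, x₂, hx, hc, hne⟩ := hdir
    obtain ⟨Q, hQ, hk⟩ := conic_pt c h0 h1 h2 h3 hx hc
    have k1 := congrArg (Polynomial.aeval (x₂ / x₁)) h
    rw [map_add, map_mul, map_zero, hk, hk, Polynomial.aeval_C] at k1
    have k2 : cof c 1 x₁ x₂ + algebraMap K _ ρ * cof c 2 x₁ x₂ = 0 := by
      have : Q * (cof c 1 x₁ x₂ + algebraMap K _ ρ * cof c 2 x₁ x₂) = 0 := by
        linear_combination k1
      exact (mul_eq_zero.1 this).resolve_left hQ
    have k3 := congrArg (Polynomial.aeval (0 : K)) h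
    rw [map_add, map_mul, map_zero, ch_at_zero c h3, ch_at_zero c h3, Polynomial.aeval_C] at k3
    have k4 : c 0 1 + ρ * c 0 2 = 0 := by
      have : c 3 0 ^ 2 * (c 0 1 + ρ * c 0 2) = 0 := by
        rw [Algebra.algebraMap_self, RingHom.id_apply] at k3
        linear_combination k3
      exact (mul_eq_zero.1 this).resolve_left (pow_ne_zero 2 h3)
    have k5 := congrArg (algebraMap K (AlgebraicClosure K)) k4
    rw [map_add, map_mul, map_zero] at k5
    apply hne
    linear_combination algebraMap K (AlgebraicClosure K) (c 0 2) * k2 -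
      cof c 2 x₁ x₂ * k5
  obtain ⟨x₁, x₂, hx, hc, hn2, hf0, hb0⟩ := hflex
  obtain ⟨Q, hQ, hk⟩ := conic_pt c h0 h1 h2 h3 hx hc
  have hA0 : Polynomial.aeval (x₂ / x₁) (th3 c).A = 0 := by
    have : (th3 c).A = ch c 3 * ch c 2 ^ 2 - ch c 4 * ch c 1 * ch c 2 + ch c 5 * ch c 1 ^ 2 := rfl
    rw [this]
    simp only [map_add, map_sub, map_mul, map_pow, hk]
    simp only [flexv] at hf0
    linear_combination Q ^ 3 * hf0
  have hB0 : Polynomial.aeval (x₂ / x₁) (th3 c).B ≠ 0 := by
    have : (th3 c).B = ch c 6 * ch c 2 ^ 3 - ch c 7 * ch c 2 ^ 2 * ch c 1 +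
      ch c 8 * ch c 2 * ch c 1 ^ 2 - ch c 9 * ch c 1 ^ 3 := rfl
    rw [this]
    simp only [map_add, map_sub, map_mul, map_pow, hk]
    intro h
    apply mul_ne_zero (pow_ne_zero 4 hQ) hb0
    simp only [cubv]
    linear_combination h
  have hg0 : Polynomial.aeval (x₂ / x₁) (th3 c).g2 ≠ 0 := by
    change Polynomial.aeval (x₂ / x₁) (ch c 2) ≠ 0
    rw [hk]
    exact mul_ne_zero hQ hn2
  exact ⟨h3, hA, ⟨_, hA0, hB0, hg0⟩, hD, hμ⟩


lemma vF_line (c : Fin 6 → Fin 10 → K) (h0 : c 0 0 = 0) (h1 : c 1 0 = 0) (t : K) :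
    vF c t 0 0 0 = c 3 0 * t ^ 2 := by
  rw [vF_cof]
  rw [Finset.sum_eq_single 0]
  · unfold cof
    simp only [Fin.sum_univ_succ, Fin.sum_univ_zero]
    simp [mx, my, h0, h1, Fin.succ]
  · intro k _ hk
    have : my (0 : K) 0 k = 0 := by
      fin_cases k <;> simp [my] at hk ⊢
    rw [this, mul_zero]
  · intro h; exact absurd (Finset.mem_univ _) h

/-- **Divisibility from the existence of points.** -/
theorem div_of_pt (c : Fin 6 → Fin 10 → K) (h0 : c 0 0 = 0) (h1 : c 1 0 = 0) (h2 : c 2 0 = 1)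
    (h3 : c 3 0 ≠ 0) (hirr : Irreducible (polyF c))
    (hpt : ∀ ρ : MvPolynomial (Fin 3) K, ρ ≠ 0 →
      ∃ x₁ x₂ y₁ y₂ : K, vF c x₁ x₂ y₁ y₂ = 0 ∧ MvPolynomial.eval ![x₂, y₁, y₂] ρ ≠ 0)
    {G : MvPolynomial (Fin 4) K} (hG : ∀ v : Fin 4 → K, MvPolynomial.eval v (polyF c) = 0 →
      MvPolynomial.eval v G = 0) : polyF c ∣ G := by
  classical
  -- the divisibility
  by_contra hnd
  have hf : Irreducible (MvPolynomial.finSuccEquiv K 3 (polyF c)) :=
    (MulEquiv.irreducible_iff (MvPolynomial.finSuccEquiv K 3).toMulEquiv).2 hirr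
  have hfd : (MvPolynomial.finSuccEquiv K 3 (polyF c)).natDegree ≠ 0 := by
    intro hd
    obtain ⟨r, hr⟩ := Polynomial.natDegree_eq_zero.1 hd
    have e1 : ∀ t : K, MvPolynomial.eval (Fin.cons t (0 : Fin 3 → K)) (polyF c) =
        MvPolynomial.eval 0 r := by
      intro t
      rw [MvPolynomial.eval_eq_eval_mv_eval', ← hr, Polynomial.map_C, Polynomial.eval_C]
    have e4 : ∀ t : K, vF c t 0 0 0 = c 3 0 * t ^ 2 := by
      intro t
      rw [vF_cof]
      rw [Finset.sum_eq_single 0]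
      · unfold cof
        simp only [Fin.sum_univ_succ, Fin.sum_univ_zero]
        simp [mx, my, h0, h1, h2, Fin.succ]
      · intro k _ hk
        have : my (0 : K) 0 k = 0 := by
          fin_cases k <;> simp [my] at hk ⊢
        rw [this, mul_zero]
      · intro h; exact absurd (Finset.mem_univ _) h
    have e2 : MvPolynomial.eval 0 r = 0 := by
      rw [← e1 0, polyF_eval]
      change vF c (0 : K) 0 0 0 = 0
      rw [e4]; ring
    have e3 : MvPolynomial.eval 0 r = c 3 0 := by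
      rw [← e1 1, polyF_eval]
      change vF c (1 : K) 0 0 0 = c 3 0
      rw [e4]; ring
    exact h3 (e3.symm.trans e2)
  have hgd : ¬ MvPolynomial.finSuccEquiv K 3 (polyF c) ∣ MvPolynomial.finSuccEquiv K 3 G :=
    fun h => hnd ((map_dvd_iff (MvPolynomial.finSuccEquiv K 3)).1 h)
  obtain ⟨a, b, ρ, hρ, hab⟩ := gauss hf hfd hgd
  obtain ⟨z₁, z₂, y₁, y₂, k1, k2⟩ := hpt ρ hρ
  have k0 : MvPolynomial.eval ![z₁, z₂, y₁, y₂] (polyF c) = 0 := by
    rw [polyF_eval]; exact k1
  have k3 := hG _ k0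
  have k4 := congrArg (fun f => Polynomial.eval z₁ (f.map (MvPolynomial.eval ![z₂, y₁, y₂]))) hab
  simp only [Polynomial.map_add, Polynomial.map_mul, Polynomial.eval_add, Polynomial.eval_mul,
    Polynomial.map_C, Polynomial.eval_C] at k4
  have k5 : ∀ f, Polynomial.eval z₁ ((MvPolynomial.finSuccEquiv K 3 f).map
      (MvPolynomial.eval ![z₂, y₁, y₂])) = MvPolynomial.eval ![z₁, z₂, y₁, y₂] f :=
    fun f => (MvPolynomial.eval_eq_eval_mv_eval' ![z₂, y₁, y₂] z₁ f).symm
  rw [k5, k5, k0, k3, zero_mul, zero_mul, add_zero] at k4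
  exact k2 k4.symm


/-- **Density from one section.** -/
theorem density_one {α β : Type*} (i₀ : α)
    (P : Fin 6 → Fin 10 → MvPolynomial (α ⊕ (β ⊕ β)) K)
    {F : MvPolynomial (Option (α ⊕ β)) K} (hF : Irreducible F)
    (hP : ∀ (u : α → K) (w w' : β → K) (s t a b : K),
      MvPolynomial.eval (ppt u w w' s t a b) F =
        vF (fun i k => MvPolynomial.eval (Sum.elim u (Sum.elim w w')) (P i k)) s t a b)
    (hP0 : P 0 0 = 0) (hP1 : P 1 0 = 0) (hP2 : P 2 0 = MvPolynomial.X (Sum.inl i₀))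
    {u₀ : α → K} {w₀ w₀' : β → K} (hu₀ : u₀ i₀ = 1)
    (hgd : Gd (fun i k => MvPolynomial.eval (Sum.elim u₀ (Sum.elim w₀ w₀')) (P i k)))
    {G : MvPolynomial (Option (α ⊕ β)) K} (hG : ∀ z : Option (α ⊕ β) → K,
      MvPolynomial.eval z F = 0 → MvPolynomial.eval z G = 0) : F ∣ G := by
  classical
  by_contra hnd
  set E := MvPolynomial.optionEquivLeft K (α ⊕ β) with hE
  have hev : ∀ (s : K) (y : α ⊕ β → K) (f : MvPolynomial (Option (α ⊕ β)) K),
      Polynomial.eval s ((E f).map (MvPolynomial.eval y)) =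
        MvPolynomial.eval (fun o => o.elim s y) f := by
    intro s y f
    induction f using MvPolynomial.induction_on with
    | C a =>
      rw [hE, MvPolynomial.optionEquivLeft_C, Polynomial.map_C, Polynomial.eval_C,
        MvPolynomial.eval_C, MvPolynomial.eval_C]
    | add p q hp hq => rw [map_add, Polynomial.map_add, Polynomial.eval_add, hp, hq, map_add]
    | mul_X p o hp =>
      rw [map_mul, Polynomial.map_mul, Polynomial.eval_mul, hp, map_mul, MvPolynomial.eval_X]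
      congr 1
      cases o with
      | none => rw [hE, MvPolynomial.optionEquivLeft_X_none]; simp
      | some o => rw [hE, MvPolynomial.optionEquivLeft_X_some]; simp
  have hf : Irreducible (E F) := (MulEquiv.irreducible_iff E.toMulEquiv).2 hF
  have hfd : (E F).natDegree ≠ 0 := by
    intro hd
    obtain ⟨r, hr⟩ := Polynomial.natDegree_eq_zero.1 hd
    have e1 : ∀ s : K, MvPolynomial.eval (ppt u₀ w₀ w₀' s 0 0 0) F = MvPolynomial.eval 0 r := by
      intro s
      have e5 : ppt u₀ w₀ w₀' s 0 0 0 = fun o => o.elim s (0 : α ⊕ β → K) := by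
        funext o
        rcases o with _ | o | o
        · rfl
        · simp [ppt]
        · simp [ppt]
      rw [e5, ← hev, ← hr, Polynomial.map_C, Polynomial.eval_C]
    have e2 := hP u₀ w₀ w₀' 0 0 0 0
    have e3 := hP u₀ w₀ w₀' 1 0 0 0
    rw [e1, vF_line _ (by simp [hP0]) (by simp [hP1])] at e2 e3
    apply hgd.h3
    rw [e2] at e3
    linear_combination -e3
  have hgd' : ¬ E F ∣ E G := fun h => hnd ((map_dvd_iff E).1 h)
  obtain ⟨a, b, ρ, hρ, hab⟩ := gauss hf hfd hgd'
  -- a good direction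
  obtain ⟨x, hx⟩ : ∃ x : α ⊕ β → K, MvPolynomial.eval x (ρ * MvPolynomial.X (Sum.inl i₀)) ≠ 0 := by
    by_contra hcon
    push Not at hcon
    exact mul_ne_zero hρ (MvPolynomial.X_ne_zero _) (MvPolynomial.funext fun y => by
      rw [hcon, map_zero])
  rw [map_mul, MvPolynomial.eval_X] at hx
  have hx1 := left_ne_zero_of_mul hx
  have hx2 := right_ne_zero_of_mul hx
  set l : K := x (Sum.inl i₀) with hl
  let u : α → Polynomial K := fun i =>
    .C (u₀ i) + .C (x (Sum.inl i) / l - u₀ i) * .X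
  let w : β → Polynomial K := fun j => .C (w₀ j) + .C (x (Sum.inr j) - w₀ j) * .X
  let w' : β → Polynomial K := fun j => .C (w₀' j)
  let π : α ⊕ (β ⊕ β) → Polynomial K := Sum.elim u (Sum.elim w w')
  have hev2 : ∀ (τ : K) (f : MvPolynomial (α ⊕ (β ⊕ β)) K),
      (MvPolynomial.aeval π f).eval τ = MvPolynomial.eval (Sum.elim (fun i => (u i).eval τ)
        (Sum.elim (fun j => (w j).eval τ) (fun j => (w' j).eval τ))) f := by
    intro τ f
    rw [← Polynomial.coe_evalRingHom, ← MvPolynomial.coe_aeval_eq_eval]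
    have e1 : ((Polynomial.aeval τ : Polynomial K →ₐ[K] K).comp (MvPolynomial.aeval π)) =
        MvPolynomial.aeval (Sum.elim (fun i => (u i).eval τ)
        (Sum.elim (fun j => (w j).eval τ) (fun j => (w' j).eval τ))) := by
      apply MvPolynomial.algHom_ext
      rintro (i | i | i) <;> simp [π]
    have e2 := congrArg (fun g : MvPolynomial (α ⊕ (β ⊕ β)) K →ₐ[K] K => g f) e1
    simp only [AlgHom.comp_apply, Polynomial.coe_aeval_eq_eval] at e2
    exact e2
  have hπ0 : (Sum.elim (fun i => (u i).eval 0)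
        (Sum.elim (fun j => (w j).eval 0) (fun j => (w' j).eval 0)) : α ⊕ (β ⊕ β) → K) =
      Sum.elim u₀ (Sum.elim w₀ w₀') := by
    funext i
    rcases i with i | i | i <;> simp [u, w, w']
  obtain ⟨r, hr, hrg⟩ := line_good (fun i k => MvPolynomial.aeval π (P i k)) (by
    simp only [hev2, hπ0]
    exact hgd)
  -- the polynomial along the line
  set κ : Polynomial K := MvPolynomial.aeval (Sum.elim (fun i => .C l * u i) w :
    α ⊕ β → Polynomial K) ρ with hκ
  have hev3 : ∀ τ : K, κ.eval τ = MvPolynomial.eval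
      (Sum.elim (fun i => l * (u i).eval τ) (fun j => (w j).eval τ)) ρ := by
    intro τ
    have e1 : ((Polynomial.aeval τ : Polynomial K →ₐ[K] K).comp (MvPolynomial.aeval
        (Sum.elim (fun i => .C l * u i) w : α ⊕ β → Polynomial K))) =
        MvPolynomial.aeval (Sum.elim (fun i => l * (u i).eval τ) (fun j => (w j).eval τ)) := by
      apply MvPolynomial.algHom_ext
      rintro (i | i) <;> simp
    have e2 := congrArg (fun g : MvPolynomial (α ⊕ β) K →ₐ[K] K => g ρ) e1
    simp only [AlgHom.comp_apply, Polynomial.coe_aeval_eq_eval,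
      MvPolynomial.coe_aeval_eq_eval] at e2
    exact e2
  have hκ0 : κ ≠ 0 := by
    intro h
    apply hx1
    have e1 := hev3 1
    rw [h, Polynomial.eval_zero] at e1
    rw [e1]
    congr 2
    funext i
    rcases i with i | i
    · simp [u]
      field_simp
    · simp [w]
  obtain ⟨τ, hτ⟩ : ∃ τ : K, (r * κ).eval τ ≠ 0 := by
    by_contra hcon
    push Not at hcon
    exact mul_ne_zero hr hκ0 (Polynomial.funext fun y => by rw [hcon, Polynomial.eval_zero])
  rw [Polynomial.eval_mul] at hτ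
  have hgτ := hrg τ (left_ne_zero_of_mul hτ)
  have hκτ := right_ne_zero_of_mul hτ
  simp only [hev2] at hgτ
  rw [hev3] at hκτ
  set uτ : α → K := fun i => (u i).eval τ with huτ
  set wτ : β → K := fun j => (w j).eval τ with hwτ
  set wτ' : β → K := fun j => (w' j).eval τ with hwτ'
  have hu1 : uτ i₀ = 1 := by
    simp only [huτ, u]
    rw [hu₀, ← hl, div_self hx2]
    simp
  set ρ' : MvPolynomial (Fin 3) K := MvPolynomial.aeval (Sum.elim
    (fun i => MvPolynomial.X 0 * MvPolynomial.C (uτ i))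
    (fun j => MvPolynomial.X 1 * MvPolynomial.C (wτ j) +
      MvPolynomial.X 2 * MvPolynomial.C (wτ' j)) : α ⊕ β → MvPolynomial (Fin 3) K) ρ with hρ'd
  have hρe : ∀ t a b : K, MvPolynomial.eval ![t, a, b] ρ' =
      MvPolynomial.eval (Sum.elim (fun i => t * uτ i) (fun j => a * wτ j + b * wτ' j)) ρ := by
    intro t a b
    rw [hρ'd, ← MvPolynomial.coe_aeval_eq_eval, ← MvPolynomial.coe_aeval_eq_eval]
    have : ((MvPolynomial.aeval ![t, a, b]).comp (MvPolynomial.aeval (Sum.elim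
      (fun i => MvPolynomial.X 0 * MvPolynomial.C (uτ i))
      (fun j => MvPolynomial.X 1 * MvPolynomial.C (wτ j) +
        MvPolynomial.X 2 * MvPolynomial.C (wτ' j)) : α ⊕ β → MvPolynomial (Fin 3) K)) :
        MvPolynomial (α ⊕ β) K →ₐ[K] K) =
        MvPolynomial.aeval (Sum.elim (fun i => t * uτ i) (fun j => a * wτ j + b * wτ' j)) := by
      apply MvPolynomial.algHom_ext
      intro i
      rcases i with i | i <;> simp
    exact congrArg (fun g : MvPolynomial (α ⊕ β) K →ₐ[K] K => g ρ) this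
  have hρ0 : ρ' ≠ 0 := by
    intro h0
    apply hκτ
    have := hρe l 1 0
    rw [h0, map_zero] at this
    rw [this]
    congr 2
    funext i
    rcases i with i | i
    · rfl
    · simp
  obtain ⟨z₁, z₂, y₁, y₂, k1, k2⟩ := hgτ.pt (by simp [hP0]) (by simp [hP1])
    (by simp [hP2, hu1]) hρ0
  rw [← hP] at k1
  have k3 := hG _ k1
  rw [hρe] at k2
  have k4 := congrArg (fun f => Polynomial.eval z₁ (f.map (MvPolynomial.eval
    (Sum.elim (fun i => z₂ * uτ i) (fun j => y₁ * wτ j + y₂ * wτ' j))))) hab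
  simp only [Polynomial.map_add, Polynomial.map_mul, Polynomial.eval_add, Polynomial.eval_mul,
    Polynomial.map_C, Polynomial.eval_C] at k4
  rw [hev, hev] at k4
  change MvPolynomial.eval (ppt uτ wτ wτ' z₁ z₂ y₁ y₂) F * _ +
    MvPolynomial.eval (ppt uτ wτ wτ' z₁ z₂ y₁ y₂) G * _ = _ at k4
  rw [k1, k3, zero_mul, zero_mul, add_zero] at k4
  exact k2 k4.symm

end Pool.Agent.Y720.MZ
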