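import Pool.Agent.Y720.WG.T12

/-!
# Irreducibility (helper720)
-/

set_option autoImplicit false
set_option linter.unusedVariables false
set_option linter.unusedSectionVars false

namespace Pool.Agent.Y720.MZ

section irr

variable {K : Type*} [Field K]

lemma dc_sq_mul (a b w0 w1 w2 : K) : dc (a ^ 2 * w0) (a ^ 2 * w1 + 2 * a * b * w0)
    (a ^ 2 * w2 + 2 * a * b * w1 + b ^ 2 * w0) (2 * a * b * w2 + b ^ 2 * w1) (b ^ 2 * w2) = 0 := by
  rw [dc, dsc]; ring

/-- the linear, quadratic and cubic part along the lines through the origin -/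
noncomputable def l0 (e : Fin 10 → K) : Polynomial K := .C (e 1) + .C (e 2) * .X
noncomputable def l1 (e : Fin 10 → K) : Polynomial K :=
  .C (e 3) + .C (e 4) * .X + .C (e 5) * .X ^ 2
noncomputable def l2 (e : Fin 10 → K) : Polynomial K :=
  .C (e 6) + .C (e 7) * .X + .C (e 8) * .X ^ 2 + .C (e 9) * .X ^ 3

lemma tan_l (e : Fin 10 → K) : qpol
    (Cb.t0 ⟨e 1, e 2, e 3, e 4, e 5, e 6, e 7, e 8, e 9⟩)
    (Cb.t1 ⟨e 1, e 2, e 3, e 4, e 5, e 6, e 7, e 8, e 9⟩)
    (Cb.t2 ⟨e 1, e 2, e 3, e 4, e 5, e 6, e 7, e 8, e 9⟩)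
    (Cb.t3 ⟨e 1, e 2, e 3, e 4, e 5, e 6, e 7, e 8, e 9⟩)
    (Cb.t4 ⟨e 1, e 2, e 3, e 4, e 5, e 6, e 7, e 8, e 9⟩) = l1 e ^ 2 - 4 * (l0 e * l2 e) := by
  rw [← tanPol_eq]; rfl

/-- the discriminant of the four tangents -/
def dT (e : Fin 10 → K) : K := dc
    (Cb.t0 ⟨e 1, e 2, e 3, e 4, e 5, e 6, e 7, e 8, e 9⟩)
    (Cb.t1 ⟨e 1, e 2, e 3, e 4, e 5, e 6, e 7, e 8, e 9⟩)
    (Cb.t2 ⟨e 1, e 2, e 3, e 4, e 5, e 6, e 7, e 8, e 9⟩)
    (Cb.t3 ⟨e 1, e 2, e 3, e 4, e 5, e 6, e 7, e 8, e 9⟩)
    (Cb.t4 ⟨e 1, e 2, e 3, e 4, e 5, e 6, e 7, e 8, e 9⟩)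

/-- a plane cubic with four tangents has no component which avoids the origin -/
lemma no_factor [CharZero K] (e : Fin 10 → K) (he0 : e 0 = 0) (he2 : e 2 ≠ 0) (hdc : dT e ≠ 0)
    {r e' : MvPolynomial (Fin 2) K}
    (h : (∑ k, MvPolynomial.C (e k) * my (MvPolynomial.X 0) (MvPolynomial.X 1) k) = r * e')
    (hr : MvPolynomial.eval 0 r ≠ 0) : IsUnit r := by
  classical
  set θ : MvPolynomial (Fin 2) K →ₐ[K] Polynomial (Polynomial K) :=
    MvPolynomial.aeval ![Polynomial.X, Polynomial.C Polynomial.X * Polynomial.X] with hθ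
  have hθ0 : ∀ p, (θ p).eval 0 = Polynomial.C (MvPolynomial.eval 0 p) := by
    intro p
    induction p using MvPolynomial.induction_on with
    | C a =>
      rw [hθ, MvPolynomial.aeval_C, MvPolynomial.eval_C]
      change (Polynomial.C (Polynomial.C a)).eval 0 = _
      rw [Polynomial.eval_C]
    | add p q hp hq => rw [map_add, Polynomial.eval_add, hp, hq, map_add, map_add]
    | mul_X p i hp =>
      rw [map_mul, Polynomial.eval_mul, map_mul, MvPolynomial.eval_X, hθ, MvPolynomial.aeval_X]
      fin_cases i <;> simp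
  have hθp : θ (∑ k, MvPolynomial.C (e k) * my (MvPolynomial.X 0) (MvPolynomial.X 1) k) =
      Polynomial.X * (Polynomial.C (l0 e) + Polynomial.C (l1 e) * Polynomial.X +
        Polynomial.C (l2 e) * Polynomial.X ^ 2) := by
    rw [map_sum]
    have e1 : ∀ k, θ (MvPolynomial.C (e k) * my (MvPolynomial.X 0) (MvPolynomial.X 1) k) =
        Polynomial.C (Polynomial.C (e k)) * my (Polynomial.X : Polynomial (Polynomial K))
          (Polynomial.C Polynomial.X * Polynomial.X) k := by
      intro k
      rw [map_mul]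
      congr 1
      · rw [hθ, MvPolynomial.aeval_C]; rfl
      · have := map_my (θ : MvPolynomial (Fin 2) K →+* Polynomial (Polynomial K))
          (MvPolynomial.X 0) (MvPolynomial.X 1) k
        simpa [hθ] using this
    rw [Finset.sum_congr rfl fun k _ => e1 k]
    simp only [Fin.sum_univ_succ, Fin.sum_univ_zero]
    simp [my, he0, l0, l1, l2, Fin.succ]
    ring
  have he'0 : MvPolynomial.eval 0 e' = 0 := by
    have e1 := congrArg (MvPolynomial.eval 0) h
    rw [map_mul] at e1
    have e2 : MvPolynomial.eval (0 : Fin 2 → K)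
        (∑ k, MvPolynomial.C (e k) * my (MvPolynomial.X 0) (MvPolynomial.X 1) k) = 0 := by
      have e3 := hθ0 (∑ k, MvPolynomial.C (e k) * my (MvPolynomial.X 0) (MvPolynomial.X 1) k)
      rw [hθp, Polynomial.eval_mul, Polynomial.eval_X, zero_mul] at e3
      exact (Polynomial.C_eq_zero.1 e3.symm)
    rw [e2] at e1
    exact (mul_eq_zero.1 e1.symm).resolve_left hr
  obtain ⟨v, hv⟩ : Polynomial.X ∣ θ e' := by
    rw [Polynomial.X_dvd_iff, Polynomial.coeff_zero_eq_eval_zero, hθ0, he'0, map_zero]
  have huv : Polynomial.C (l0 e) + Polynomial.C (l1 e) * Polynomial.X +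
        Polynomial.C (l2 e) * Polynomial.X ^ 2 = θ r * v := by
    apply mul_left_cancel₀ (Polynomial.X_ne_zero (R := Polynomial K))
    rw [← hθp, h, map_mul, hv]; ring
  set u := θ r with hu
  have hl0 : l0 e ≠ 0 := by
    intro h
    have := congrArg (fun f : Polynomial K => f.coeff 1) h
    simp [l0] at this
    exact he2 this
  have hf0 : Polynomial.C (l0 e) + Polynomial.C (l1 e) * Polynomial.X +
        Polynomial.C (l2 e) * Polynomial.X ^ 2 ≠ 0 := by
    intro h
    have := congrArg (fun f : Polynomial (Polynomial K) => f.coeff 0) h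
    simp at this
    exact hl0 this
  have hfd : (Polynomial.C (l0 e) + Polynomial.C (l1 e) * Polynomial.X +
        Polynomial.C (l2 e) * Polynomial.X ^ 2).natDegree ≤ 2 := by compute_degree
  have hu0 : u ≠ 0 := by
    intro h; apply hf0; rw [huv, h, zero_mul]
  have hv0 : v ≠ 0 := by
    intro h; apply hf0; rw [huv, h, mul_zero]
  have hdeg : u.natDegree + v.natDegree ≤ 2 := by
    rw [← Polynomial.natDegree_mul hu0 hv0, ← huv]; exact hfd
  have hur : u.coeff 0 = Polynomial.C (MvPolynomial.eval 0 r) := by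
    rw [Polynomial.coeff_zero_eq_eval_zero, hu, hθ0]
  have c0 : l0 e = u.coeff 0 * v.coeff 0 := by
    have := congrArg (fun f : Polynomial (Polynomial K) => f.coeff 0) huv
    simp only [Polynomial.mul_coeff_zero] at this
    rw [← this]; simp
  have c1 : l1 e = u.coeff 0 * v.coeff 1 + u.coeff 1 * v.coeff 0 := by
    have := congrArg (fun f : Polynomial (Polynomial K) => f.coeff 1) huv
    simp only [Polynomial.mul_coeff_one] at this
    rw [← this]; simp
  have c2 : l2 e = u.coeff 0 * v.coeff 2 + u.coeff 1 * v.coeff 1 + u.coeff 2 * v.coeff 0 := by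
    have := congrArg (fun f : Polynomial (Polynomial K) => f.coeff 2) huv
    simp only [Polynomial.coeff_mul, Finset.Nat.antidiagonal_succ, Finset.Nat.antidiagonal_zero,
      Finset.sum_cons, Finset.map_cons, Finset.map_singleton, Finset.sum_singleton] at this
    simp at this
    rw [this]; ring
  rcases Nat.lt_or_ge 0 u.natDegree with hpos | hz
  · exfalso
    rcases Nat.lt_or_ge 1 u.natDegree with h2 | h1
    · -- the degree is two
      have hvd : v.natDegree = 0 := by omega
      have v1 : v.coeff 1 = 0 := Polynomial.coeff_eq_zero_of_natDegree_lt (by omega)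
      have v2 : v.coeff 2 = 0 := Polynomial.coeff_eq_zero_of_natDegree_lt (by omega)
      rw [v1, mul_zero, zero_add] at c1
      rw [v1, v2, mul_zero, mul_zero, zero_add, zero_add] at c2
      have k1 := tan_l e
      rw [c0, c1, c2] at k1
      set V := v.coeff 0 with hV
      set W := u.coeff 1 ^ 2 - 4 * (u.coeff 0 * u.coeff 2) with hW
      have k2 : (u.coeff 1 * V) ^ 2 - 4 * (u.coeff 0 * V * (u.coeff 2 * V)) = V ^ 2 * W := by
        rw [hW]; ring
      rw [k2] at k1
      have hVd : V.natDegree = 1 := by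
        have k3 : (l0 e).natDegree = 1 := by
          rw [l0]
          compute_degree!
        rw [c0, hur, Polynomial.natDegree_C_mul hr] at k3
        exact k3
      have hV0 : V ≠ 0 := by
        intro h; rw [h, Polynomial.natDegree_zero] at hVd; omega
      have hWd : W.natDegree ≤ 2 := by
        by_cases hW0 : W = 0
        · rw [hW0, Polynomial.natDegree_zero]; omega
        · have k4 : (V ^ 2 * W).natDegree ≤ 4 := by
            rw [← k1]; unfold qpol; compute_degree
          rw [Polynomial.natDegree_mul (pow_ne_zero 2 hV0) hW0, Polynomial.natDegree_pow, hVd] at k4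
          omega
      have eV : V = .C (V.coeff 0) + .C (V.coeff 1) * .X := by
        conv_lhs => rw [V.as_sum_range_C_mul_X_pow' (n := 2) (by omega)]
        simp [Finset.sum_range_succ]
      have eW : W = .C (W.coeff 0) + .C (W.coeff 1) * .X + .C (W.coeff 2) * .X ^ 2 := by
        conv_lhs => rw [W.as_sum_range_C_mul_X_pow' (n := 3) (by omega)]
        simp [Finset.sum_range_succ]
      have k5 : V ^ 2 * W = qpol (V.coeff 0 ^ 2 * W.coeff 0)
          (V.coeff 0 ^ 2 * W.coeff 1 + 2 * V.coeff 0 * V.coeff 1 * W.coeff 0)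
          (V.coeff 0 ^ 2 * W.coeff 2 + 2 * V.coeff 0 * V.coeff 1 * W.coeff 1 +
            V.coeff 1 ^ 2 * W.coeff 0)
          (2 * V.coeff 0 * V.coeff 1 * W.coeff 2 + V.coeff 1 ^ 2 * W.coeff 1)
          (V.coeff 1 ^ 2 * W.coeff 2) := by
        conv_lhs => rw [eV, eW]
        simp only [qpol, map_add, map_mul, map_pow, map_ofNat]
        ring
      rw [k5] at k1
      obtain ⟨q0, q1, q2, q3, q4⟩ := qpol_inj k1
      apply hdc
      rw [dT, q0, q1, q2, q3, q4]
      exact dc_sq_mul _ _ _ _ _
    · -- the degree is one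
      have u2 : u.coeff 2 = 0 := Polynomial.coeff_eq_zero_of_natDegree_lt (by omega)
      have v2 : v.coeff 2 = 0 := Polynomial.coeff_eq_zero_of_natDegree_lt (by omega)
      rw [u2, v2, mul_zero, zero_mul, zero_add, add_zero] at c2
      apply qpol_not_sq hdc (u.coeff 0 * v.coeff 1 - u.coeff 1 * v.coeff 0)
      rw [tan_l, c0, c1, c2]
      ring
  · -- the degree is zero
    have k1 : u = Polynomial.C (Polynomial.C (MvPolynomial.eval 0 r)) := by
      rw [← hur]
      exact Polynomial.eq_C_of_natDegree_eq_zero (by omega)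
    set r₀ := MvPolynomial.eval 0 r with hr₀
    have k2 : ∀ a m : K, MvPolynomial.eval ![a, m * a] r = r₀ := by
      intro a m
      have k3 : ∀ p, ((θ p).eval (Polynomial.C a)).eval m = MvPolynomial.eval ![a, m * a] p := by
        intro p
        induction p using MvPolynomial.induction_on with
        | C b =>
          rw [hθ, MvPolynomial.aeval_C, MvPolynomial.eval_C]
          change ((Polynomial.C (Polynomial.C b)).eval (Polynomial.C a)).eval m = _
          rw [Polynomial.eval_C, Polynomial.eval_C]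
        | add p q hp hq =>
          rw [map_add, Polynomial.eval_add, Polynomial.eval_add, hp, hq, map_add]
        | mul_X p i hp =>
          rw [map_mul, Polynomial.eval_mul, Polynomial.eval_mul, hp, map_mul,
            MvPolynomial.eval_X, hθ, MvPolynomial.aeval_X]
          fin_cases i
          · simp
          · simp
            left; ring
      rw [← k3, ← hu, k1, Polynomial.eval_C, Polynomial.eval_C]
    have k4 : MvPolynomial.X 0 * (r - MvPolynomial.C r₀) = 0 := by
      apply MvPolynomial.funext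
      intro x
      rw [map_zero, map_mul, MvPolynomial.eval_X, map_sub, MvPolynomial.eval_C]
      by_cases hx : x 0 = 0
      · rw [hx, zero_mul]
      · have k5 := k2 (x 0) (x 1 / x 0)
        have k6 : ![x 0, x 1 / x 0 * x 0] = x := by
          funext i
          fin_cases i
          · simp
          · simp [hx]
        rw [k6] at k5
        rw [k5, sub_self, mul_zero]
    have k5 := (mul_eq_zero.1 k4).resolve_left (MvPolynomial.X_ne_zero _)
    rw [sub_eq_zero] at k5
    rw [k5]
    exact (isUnit_iff_ne_zero.2 hr).map MvPolynomial.C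

end irr

end Pool.Agent.Y720.MZ
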