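import Pool.Agent.Y720.WG.T13

/-!
# Irreducibility, second part (helper720)
-/

set_option autoImplicit false
set_option linter.unusedVariables false
set_option linter.unusedSectionVars false

namespace Pool.Agent.Y720.MZ

section irr

variable {K : Type*} [Field K]

lemma pof_zero (c : Fin 6 → Fin 10 → K) {B : Type*} [CommRing B] [Algebra K B] (i : Fin 6) :
    pof c i (0 : B) 0 = algebraMap K B (c i 0) := by
  unfold pof
  rw [Finset.sum_eq_single 0]
  · simp [my]
  · intro k _ hk
    have : my (0 : B) 0 k = 0 := by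
      fin_cases k <;> simp [my] at hk ⊢
    rw [this, mul_zero]
  · intro h; exact absurd (Finset.mem_univ _) h

lemma poly_fs (c : Fin 6 → Fin 10 → K) : MvPolynomial.finSuccEquiv K 3 (polyF c) =
    Polynomial.C (pof c 3 (MvPolynomial.X 1) (MvPolynomial.X 2)) * Polynomial.X ^ 2 +
    Polynomial.C (pof c 1 (MvPolynomial.X 1) (MvPolynomial.X 2) +
      pof c 4 (MvPolynomial.X 1) (MvPolynomial.X 2) * MvPolynomial.X 0) * Polynomial.X +
    Polynomial.C (pof c 0 (MvPolynomial.X 1) (MvPolynomial.X 2) +
      pof c 2 (MvPolynomial.X 1) (MvPolynomial.X 2) * MvPolynomial.X 0 +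
      pof c 5 (MvPolynomial.X 1) (MvPolynomial.X 2) * MvPolynomial.X 0 ^ 2) := by
  have e0 : MvPolynomial.finSuccEquiv K 3 (MvPolynomial.X 0) = Polynomial.X :=
    MvPolynomial.finSuccEquiv_X_zero
  have e1 : MvPolynomial.finSuccEquiv K 3 (MvPolynomial.X 1) =
    Polynomial.C (MvPolynomial.X 0) := MvPolynomial.finSuccEquiv_X_succ (j := 0)
  have e2 : MvPolynomial.finSuccEquiv K 3 (MvPolynomial.X 2) =
    Polynomial.C (MvPolynomial.X 1) := MvPolynomial.finSuccEquiv_X_succ (j := 1)
  have e3 : MvPolynomial.finSuccEquiv K 3 (MvPolynomial.X 3) =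
    Polynomial.C (MvPolynomial.X 2) := MvPolynomial.finSuccEquiv_X_succ (j := 2)
  have h1 := map_vF c (MvPolynomial.finSuccEquiv K 3 : MvPolynomial (Fin 4) K →ₐ[K]
    Polynomial (MvPolynomial (Fin 3) K)) (MvPolynomial.X 0) (MvPolynomial.X 1) (MvPolynomial.X 2)
    (MvPolynomial.X 3)
  simp only [AlgEquiv.coe_toAlgHom, e0, e1, e2, e3] at h1
  rw [polyF, h1, vF_pof]
  have h2 : ∀ i, pof c i (Polynomial.C (MvPolynomial.X 1) : Polynomial (MvPolynomial (Fin 3) K))
      (Polynomial.C (MvPolynomial.X 2)) =
      Polynomial.C (pof c i (MvPolynomial.X 1) (MvPolynomial.X 2)) := by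
    intro i
    exact (map_pof c (Polynomial.CAlgHom : MvPolynomial (Fin 3) K →ₐ[K]
      Polynomial (MvPolynomial (Fin 3) K)) i (MvPolynomial.X 1) (MvPolynomial.X 2)).symm
  simp only [h2, Fin.sum_univ_succ, Fin.sum_univ_zero]
  simp [mx, Fin.succ]
  ring

lemma q2c {R : Type*} [CommRing R] (a b d : R) : (Polynomial.C a * Polynomial.X ^ 2 +
    Polynomial.C b * Polynomial.X + Polynomial.C d : Polynomial R).coeff 2 = a := by
  simp [Polynomial.coeff_X, Polynomial.coeff_C]

lemma q0c {R : Type*} [CommRing R] (a b d : R) : (Polynomial.C a * Polynomial.X ^ 2 +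
    Polynomial.C b * Polynomial.X + Polynomial.C d : Polynomial R).coeff 0 = d := by
  simp

theorem irr_of [CharZero K] (c : Fin 6 → Fin 10 → K) (h0 : c 0 0 = 0) (h1 : c 1 0 = 0)
    (h2 : c 2 0 = 1) (h3 : c 3 0 ≠ 0) (hg : c 0 2 ≠ 0) (hdc : dT (c 0) ≠ 0) :
    Irreducible (polyF c) := by
  classical
  refine (MulEquiv.irreducible_iff (MvPolynomial.finSuccEquiv K 3).toMulEquiv).1 ?_
  change Irreducible (MvPolynomial.finSuccEquiv K 3 (polyF c))
  rw [poly_fs]
  set P : Fin 6 → MvPolynomial (Fin 3) K := fun i =>
    pof c i (MvPolynomial.X 1) (MvPolynomial.X 2) with hP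
  set f : Polynomial (MvPolynomial (Fin 3) K) := Polynomial.C (P 3) * Polynomial.X ^ 2 +
    Polynomial.C (P 1 + P 4 * MvPolynomial.X 0) * Polynomial.X +
    Polynomial.C (P 0 + P 2 * MvPolynomial.X 0 + P 5 * MvPolynomial.X 0 ^ 2) with hf
  change Irreducible f
  have f2 : f.coeff 2 = P 3 := q2c _ _ _
  have f0 : f.coeff 0 = P 0 + P 2 * MvPolynomial.X 0 + P 5 * MvPolynomial.X 0 ^ 2 := q0c _ _ _
  -- the specialization
  set ψ : MvPolynomial (Fin 3) K →ₐ[K] Polynomial K := MvPolynomial.aeval ![Polynomial.X, 0, 0]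
    with hψ
  have ψP : ∀ i, ψ (P i) = Polynomial.C (c i 0) := by
    intro i
    rw [hP]
    change ψ (pof c i (MvPolynomial.X 1) (MvPolynomial.X 2)) = _
    rw [map_pof, hψ, MvPolynomial.aeval_X, MvPolynomial.aeval_X]
    exact pof_zero c i
  have hP3 : P 3 ≠ 0 := by
    intro h
    have := ψP 3
    rw [h, map_zero] at this
    exact h3 (Polynomial.C_eq_zero.1 this.symm)
  have hfd : f.natDegree = 2 := by
    rw [hf]; compute_degree!
  have hf00 : f ≠ 0 := by
    intro h; rw [h, Polynomial.natDegree_zero] at hfd; omega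
  -- the contents
  have cont : ∀ (r : MvPolynomial (Fin 3) K) (h : Polynomial (MvPolynomial (Fin 3) K)),
      f = Polynomial.C r * h → IsUnit r := by
    intro r h hrh
    have k3 : P 3 = r * h.coeff 2 := by rw [← f2, hrh, Polynomial.coeff_C_mul]
    have k0 : P 0 + P 2 * MvPolynomial.X 0 + P 5 * MvPolynomial.X 0 ^ 2 = r * h.coeff 0 := by
      rw [← f0, hrh, Polynomial.coeff_C_mul]
    set E := MvPolynomial.finSuccEquiv K 2 with hE
    have e0 : E (MvPolynomial.X 0) = Polynomial.X := MvPolynomial.finSuccEquiv_X_zero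
    have e1 : E (MvPolynomial.X 1) =
      Polynomial.C (MvPolynomial.X 0) := MvPolynomial.finSuccEquiv_X_succ (j := 0)
    have e2 : E (MvPolynomial.X 2) =
      Polynomial.C (MvPolynomial.X 1) := MvPolynomial.finSuccEquiv_X_succ (j := 1)
    have EP : ∀ i, E (P i) = Polynomial.C (pof c i (MvPolynomial.X 0) (MvPolynomial.X 1)) := by
      intro i
      have t1 := map_pof c (E : MvPolynomial (Fin 3) K →ₐ[K]
        Polynomial (MvPolynomial (Fin 2) K)) i (MvPolynomial.X 1) (MvPolynomial.X 2)
      simp only [AlgEquiv.coe_toAlgHom, e1, e2] at t1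
      have t2 := map_pof c (Polynomial.CAlgHom : MvPolynomial (Fin 2) K →ₐ[K]
        Polynomial (MvPolynomial (Fin 2) K)) i (MvPolynomial.X 0) (MvPolynomial.X 1)
      exact t1.trans t2.symm
    have k3' := congrArg E k3
    rw [map_mul, EP] at k3'
    have q3 : pof c 3 (MvPolynomial.X 0 : MvPolynomial (Fin 2) K) (MvPolynomial.X 1) ≠ 0 := by
      intro h'
      have t := congrArg (MvPolynomial.aeval (0 : Fin 2 → K)) h'
      rw [map_pof, MvPolynomial.aeval_X, MvPolynomial.aeval_X, map_zero] at t
      have t' := pof_zero c (B := K) 3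
      rw [Algebra.algebraMap_self, RingHom.id_apply] at t'
      exact h3 (t'.symm.trans t)
    have hne : E r * E (h.coeff 2) ≠ 0 := by
      rw [← k3']
      exact Polynomial.C_ne_zero.2 q3
    have hd : (E r).natDegree + (E (h.coeff 2)).natDegree = 0 := by
      rw [← Polynomial.natDegree_mul (left_ne_zero_of_mul hne) (right_ne_zero_of_mul hne), ← k3',
        Polynomial.natDegree_C]
    have hr1 : E r = Polynomial.C ((E r).coeff 0) :=
      Polynomial.eq_C_of_natDegree_eq_zero (by omega)
    set r1 := (E r).coeff 0 with hr1d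
    have j3 : pof c 3 (MvPolynomial.X 0 : MvPolynomial (Fin 2) K) (MvPolynomial.X 1) =
        r1 * (E (h.coeff 2)).coeff 0 := by
      have := congrArg (fun g : Polynomial (MvPolynomial (Fin 2) K) => g.coeff 0) k3'
      rw [hr1] at this
      simpa using this
    have j0 : pof c 0 (MvPolynomial.X 0 : MvPolynomial (Fin 2) K) (MvPolynomial.X 1) =
        r1 * (E (h.coeff 0)).coeff 0 := by
      have k0' := congrArg E k0
      rw [map_add, map_add, map_mul, map_mul, map_mul, map_pow, EP, EP, EP, e0, hr1] at k0'
      have := congrArg (fun g : Polynomial (MvPolynomial (Fin 2) K) => g.coeff 0) k0'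
      simpa using this
    have hr10 : MvPolynomial.eval 0 r1 ≠ 0 := by
      intro h'
      have t7 : MvPolynomial.aeval (0 : Fin 2 → K) r1 = 0 :=
        (congrArg (fun g : MvPolynomial (Fin 2) K →+* K => g r1)
          (MvPolynomial.coe_aeval_eq_eval (0 : Fin 2 → K))).trans h'
      have t := congrArg (MvPolynomial.aeval (0 : Fin 2 → K)) j3
      rw [map_pof, MvPolynomial.aeval_X, MvPolynomial.aeval_X, map_mul, t7, zero_mul] at t
      have t' := pof_zero c (B := K) 3
      rw [Algebra.algebraMap_self, RingHom.id_apply] at t'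
      exact h3 (t'.symm.trans t)
    have hu : IsUnit r1 := no_factor (c 0) h0 hg hdc j0 hr10
    have hu2 : IsUnit (E r) := by
      rw [hr1]
      exact hu.map Polynomial.C
    have := hu2.map E.symm
    rwa [AlgEquiv.symm_apply_apply] at this
  rw [irreducible_iff]
  refine ⟨fun hu => ?_, fun g h hgh => ?_⟩
  · have := Polynomial.natDegree_eq_zero_of_isUnit hu
    omega
  · have hg0 : g ≠ 0 := by intro h'; apply hf00; rw [hgh, h', zero_mul]
    have hh0 : h ≠ 0 := by intro h'; apply hf00; rw [hgh, h', mul_zero]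
    have hdeg : g.natDegree + h.natDegree = 2 := by
      rw [← Polynomial.natDegree_mul hg0 hh0, ← hgh, hfd]
    rcases Nat.lt_or_ge 0 g.natDegree with hgp | hgz
    · rcases Nat.lt_or_ge 0 h.natDegree with hhp | hhz
      · exfalso
        -- both factors have degree one
        have hg1 : g.natDegree = 1 := by omega
        have hh1 : h.natDegree = 1 := by omega
        have ge : g = Polynomial.C (g.coeff 1) * Polynomial.X + Polynomial.C (g.coeff 0) := by
          conv_lhs => rw [g.as_sum_range_C_mul_X_pow' (n := 2) (by omega)]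
          simp [Finset.sum_range_succ]
          ring
        have hl : P 3 = g.coeff 1 * h.coeff 1 := by
          have t1 : f.leadingCoeff = P 3 := by rw [Polynomial.leadingCoeff, hfd, f2]
          rw [← t1, hgh, Polynomial.leadingCoeff_mul, Polynomial.leadingCoeff,
            Polynomial.leadingCoeff, hg1, hh1]
        have hψu : IsUnit (ψ (g.coeff 1)) := by
          have t1 : IsUnit (ψ (g.coeff 1) * ψ (h.coeff 1)) := by
            rw [← map_mul, ← hl, ψP]
            exact (isUnit_iff_ne_zero.2 h3).map Polynomial.C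
          exact isUnit_of_mul_isUnit_left t1
        obtain ⟨v, hv⟩ := hψu.exists_right_inv
        set ρ : Polynomial K := -(v * ψ (g.coeff 0)) with hρ
        have t1 : (g.map (ψ : MvPolynomial (Fin 3) K →+* Polynomial K)).eval ρ = 0 := by
          rw [ge]
          simp only [Polynomial.map_add, Polynomial.map_mul, Polynomial.map_C, Polynomial.map_X,
            Polynomial.eval_add, Polynomial.eval_mul, Polynomial.eval_C, Polynomial.eval_X]
          change ψ (g.coeff 1) * ρ + ψ (g.coeff 0) = 0
          rw [hρ]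
          linear_combination -ψ (g.coeff 0) * hv
        have t2 : (f.map (ψ : MvPolynomial (Fin 3) K →+* Polynomial K)).eval ρ = 0 := by
          rw [hgh, Polynomial.map_mul, Polynomial.eval_mul, t1, zero_mul]
        rw [hf] at t2
        simp only [Polynomial.map_add, Polynomial.map_mul, Polynomial.map_pow, Polynomial.map_C,
            Polynomial.map_X, Polynomial.eval_add, Polynomial.eval_mul, Polynomial.eval_pow,
            Polynomial.eval_C, Polynomial.eval_X] at t2
        change ψ (P 3) * ρ ^ 2 + ψ (P 1 + P 4 * MvPolynomial.X 0) * ρ +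
          ψ (P 0 + P 2 * MvPolynomial.X 0 + P 5 * MvPolynomial.X 0 ^ 2) = 0 at t2
        have ψX : ψ (MvPolynomial.X 0) = Polynomial.X := by
          rw [hψ, MvPolynomial.aeval_X]; rfl
        simp only [map_add, map_mul, map_pow, ψP, ψX, h0, h1, h2, map_zero, map_one, zero_add,
          one_mul] at t2
        have t3 := congrArg (Polynomial.eval 0) t2
        simp only [Polynomial.eval_add, Polynomial.eval_mul, Polynomial.eval_pow,
          Polynomial.eval_C, Polynomial.eval_X, Polynomial.eval_zero] at t3
        have t4 : ρ.eval 0 = 0 := by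
          have : c 3 0 * ρ.eval 0 ^ 2 = 0 := by linear_combination t3
          exact (pow_eq_zero_iff two_ne_zero).1 ((mul_eq_zero.1 this).resolve_left h3)
        have t5 := congrArg (fun p : Polynomial K => (Polynomial.derivative p).eval 0) t2
        simp only [Polynomial.derivative_add, Polynomial.derivative_mul, Polynomial.derivative_pow,
          Polynomial.derivative_C, Polynomial.derivative_X, Polynomial.eval_add,
          Polynomial.eval_mul, Polynomial.eval_pow, Polynomial.eval_C, Polynomial.eval_X,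
          Polynomial.derivative_zero, Polynomial.eval_zero, t4] at t5
        simp at t5
      · right
        have he : h = Polynomial.C (h.coeff 0) := Polynomial.eq_C_of_natDegree_eq_zero (by omega)
        rw [he]
        exact (cont (h.coeff 0) g (by rw [hgh, mul_comm]; rw [← he])).map Polynomial.C
    · left
      have he : g = Polynomial.C (g.coeff 0) := Polynomial.eq_C_of_natDegree_eq_zero (by omega)
      rw [he]
      exact (cont (g.coeff 0) h (by rw [← he]; exact hgh)).map Polynomial.C

end irr

end Pool.Agent.Y720.MZ
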