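import Pool.Agent.Y720.WG.T14

/-!
# Irreducibility along lines (helper720)
-/

set_option autoImplicit false
set_option linter.unusedVariables false
set_option linter.unusedSectionVars false

namespace Pool.Agent.Y720.MZ

/-- the discriminant of the tangents, over a ring -/
def dTR {R : Type*} [CommRing R] (e : Fin 10 → R) : R := dc
    (Cb.t0 ⟨e 1, e 2, e 3, e 4, e 5, e 6, e 7, e 8, e 9⟩)
    (Cb.t1 ⟨e 1, e 2, e 3, e 4, e 5, e 6, e 7, e 8, e 9⟩)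
    (Cb.t2 ⟨e 1, e 2, e 3, e 4, e 5, e 6, e 7, e 8, e 9⟩)
    (Cb.t3 ⟨e 1, e 2, e 3, e 4, e 5, e 6, e 7, e 8, e 9⟩)
    (Cb.t4 ⟨e 1, e 2, e 3, e 4, e 5, e 6, e 7, e 8, e 9⟩)

lemma dTR_map {R S : Type*} [CommRing R] [CommRing S] (φ : R →+* S) (e : Fin 10 → R) :
    φ (dTR e) = dTR (fun k => φ (e k)) := by
  rw [dTR, dTR, ← map_dc]
  simp only [Cb.t0, Cb.t1, Cb.t2, Cb.t3, Cb.t4, map_add, map_sub, map_mul, map_pow, map_ofNat]

variable {K : Type*} [Field K]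

lemma dT_of_tan (e : Fin 10 → K) (hsep : (tanPol e).Separable) (hdeg : 3 ≤ (tanPol e).natDegree) :
    dT e ≠ 0 := by
  rw [tanPol_eq] at hsep hdeg
  exact dc_ne_zero hsep hdeg

theorem line_irr (c : Fin 6 → Fin 10 → Polynomial K) (h2 : (c 0 2).eval 0 ≠ 0)
    (hdc : dT (fun k => (c 0 k).eval 0) ≠ 0) : ∃ r : Polynomial K, r ≠ 0 ∧ ∀ τ : K,
      r.eval τ ≠ 0 → (c 0 2).eval τ ≠ 0 ∧ dT (fun k => (c 0 k).eval τ) ≠ 0 := by
  have h1 : ∀ τ : K, (dTR (c 0)).eval τ = dT (fun k => (c 0 k).eval τ) := fun τ =>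
    dTR_map (Polynomial.evalRingHom τ) (c 0)
  refine ⟨c 0 2 * dTR (c 0), mul_ne_zero ?_ ?_, fun τ hτ => ?_⟩
  · intro h; apply h2; rw [h, Polynomial.eval_zero]
  · intro h; apply hdc; rw [← h1, h, Polynomial.eval_zero]
  · rw [Polynomial.eval_mul, h1] at hτ
    exact ⟨left_ne_zero_of_mul hτ, right_ne_zero_of_mul hτ⟩

end Pool.Agent.Y720.MZ
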