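import Mathlib

/-!
# Specialization of rational functions (helper720)
-/

set_option autoImplicit false
set_option linter.unusedVariables false
set_option linter.unusedSectionVars false

namespace Pool.Agent.Y720.MZ

section spec

variable {K : Type*} [Field K]

/-- the local ring of a point -/
noncomputable def locR (s : K) : Subalgebra K (RatFunc K) where
  carrier := {f | f.denom.eval s ≠ 0}
  mul_mem' := by
    intro f g hf hg h
    obtain ⟨c, hc⟩ := RatFunc.denom_mul_dvd f g
    have := congrArg (Polynomial.eval s) hc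
    rw [Polynomial.eval_mul, Polynomial.eval_mul, h, zero_mul] at this
    exact mul_ne_zero hf hg this
  add_mem' := by
    intro f g hf hg h
    obtain ⟨c, hc⟩ := RatFunc.denom_add_dvd f g
    have := congrArg (Polynomial.eval s) hc
    rw [Polynomial.eval_mul, Polynomial.eval_mul, h, zero_mul] at this
    exact mul_ne_zero hf hg this
  algebraMap_mem' := by
    intro c
    have : algebraMap K (RatFunc K) c = RatFunc.C c := rfl
    rw [this]
    change (RatFunc.C c).denom.eval s ≠ 0
    rw [RatFunc.denom_C, Polynomial.eval_one]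
    exact one_ne_zero

/-- the evaluation -/
noncomputable def evR (s : K) : locR s →ₐ[K] K where
  toFun f := RatFunc.eval (RingHom.id K) s f.1
  map_one' := by simp
  map_mul' f g := RatFunc.eval_mul (RingHom.id K) (a := s) f.2 g.2
  map_zero' := by simp
  map_add' f g := RatFunc.eval_add (RingHom.id K) (a := s) f.2 g.2
  commutes' c := by
    change RatFunc.eval (RingHom.id K) s (RatFunc.C c) = c
    simp

/-- **Specialization.** -/
theorem exists_spec [Infinite K] (S : Finset (RatFunc K)) :
    ∃ (B : Subalgebra K (RatFunc K)) (e : B →ₐ[K] K),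
      (∀ q : Polynomial K, algebraMap (Polynomial K) (RatFunc K) q ∈ B) ∧ ∀ f ∈ S, f ∈ B := by
  classical
  set D : Polynomial K := ∏ f ∈ S, f.denom with hD
  have hD0 : D ≠ 0 := Finset.prod_ne_zero_iff.2 fun f _ => f.denom_ne_zero
  obtain ⟨s, hs⟩ : ∃ s : K, D.eval s ≠ 0 := by
    by_contra hcon
    push Not at hcon
    exact hD0 (Polynomial.funext fun x => by rw [hcon, Polynomial.eval_zero])
  refine ⟨locR s, evR s, fun q => ?_, fun f hf => ?_⟩
  · change (algebraMap (Polynomial K) (RatFunc K) q).denom.eval s ≠ 0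
    rw [RatFunc.denom_algebraMap, Polynomial.eval_one]
    exact one_ne_zero
  change f.denom.eval s ≠ 0
  intro h
  apply hs
  rw [hD, Polynomial.eval_prod]
  exact Finset.prod_eq_zero hf h

end spec

section emb

/-- **An embedding of the function field.** -/
theorem exists_emb (K : Type*) [Field K] [NumberField K] :
    ∃ τ : RatFunc K →+* ℂ, True := by
  obtain ⟨φ⟩ : Nonempty (K →+* ℂ) := inferInstance
  let _ : Algebra K ℂ := φ.toAlgebra
  obtain ⟨z, hz⟩ : ∃ z : ℂ, Transcendental K z := by
    have h1 := transcendental_liouvilleNumber (m := 2) le_rfl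
    refine ⟨((liouvilleNumber (2 : ℕ) : ℝ) : ℂ), fun h => ?_⟩
    have h2 : IsAlgebraic ℚ ((liouvilleNumber (2 : ℕ) : ℝ) : ℂ) := h.restrictScalars ℚ
    have h3 : IsAlgebraic ℚ (liouvilleNumber (2 : ℕ) : ℝ) := by
      have : ((liouvilleNumber (2 : ℕ) : ℝ) : ℂ) = algebraMap ℝ ℂ (liouvilleNumber (2 : ℕ)) := rfl
      rw [this] at h2
      exact (isAlgebraic_algebraMap_iff (algebraMap ℝ ℂ).injective).1 h2
    exact h1 ((IsFractionRing.isAlgebraic_iff ℤ ℚ ℝ).2 h3)
  have hinj : Function.Injective (Polynomial.aeval (R := K) z) :=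
    transcendental_iff_injective.1 hz
  exact ⟨(RatFunc.liftAlgHom (Polynomial.aeval (R := K) z) (by
    intro p hp
    rw [Submonoid.mem_comap, mem_nonZeroDivisors_iff_ne_zero]
    intro h0
    exact nonZeroDivisors.ne_zero hp (hinj (by rw [h0, map_zero]))) :
      RatFunc K →ₐ[K] ℂ).toRingHom, trivial⟩

end emb

end Pool.Agent.Y720.MZ
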