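import Mathlib

/-!
# Polynomials which vanish at points close to the origin with a transcendental slope (helper720)
-/

set_option autoImplicit false
set_option linter.unusedVariables false
set_option linter.unusedSectionVars false

open Filter Topology

namespace Pool.Agent.Y720.MZ

section slope

variable {K : Type*} [Field K]

/-- the substitution `(η, μ η)` -/
noncomputable def HH (r : MvPolynomial (Fin 2) K) : Polynomial (Polynomial K) :=
  MvPolynomial.aeval ![Polynomial.X, Polynomial.C Polynomial.X * Polynomial.X] r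

lemma HH_eval {B : Type*} [CommRing B] [Algebra K B] (r : MvPolynomial (Fin 2) K) (μ η : B) :
    Polynomial.eval₂ (Polynomial.aeval (R := K) μ : Polynomial K →+* B) η (HH r) =
      MvPolynomial.aeval ![η, μ * η] r := by
  have h1 : (Polynomial.eval₂RingHom (Polynomial.aeval (R := K) μ : Polynomial K →+* B) η).comp
      ((MvPolynomial.aeval (![Polynomial.X, Polynomial.C Polynomial.X * Polynomial.X] :
        Fin 2 → Polynomial (Polynomial K)) : MvPolynomial (Fin 2) K →ₐ[K] _) :
        MvPolynomial (Fin 2) K →+* Polynomial (Polynomial K)) =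
      ((MvPolynomial.aeval ![η, μ * η] : MvPolynomial (Fin 2) K →ₐ[K] B) :
        MvPolynomial (Fin 2) K →+* B) := by
    apply MvPolynomial.ringHom_ext
    · intro c
      simp only [RingHom.comp_apply, RingHom.coe_coe, MvPolynomial.aeval_C]
      have : algebraMap K (Polynomial (Polynomial K)) c = Polynomial.C (Polynomial.C c) := rfl
      rw [this, Polynomial.coe_eval₂RingHom, Polynomial.eval₂_C]
      simp
    · intro i
      fin_cases i
      · simp
      · simp
  exact congrArg (fun f : MvPolynomial (Fin 2) K →+* B => f r) h1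

lemma HH_ne [Infinite K] {r : MvPolynomial (Fin 2) K} (hr : r ≠ 0) : HH r ≠ 0 := by
  intro h
  apply hr
  have h1 : r * MvPolynomial.X 0 = 0 := by
    apply MvPolynomial.funext
    intro v
    rw [map_mul, map_zero, MvPolynomial.eval_X]
    by_cases h0 : v 0 = 0
    · rw [h0, mul_zero]
    · have h2 := HH_eval (B := K) r (v 1 / v 0) (v 0)
      rw [h, Polynomial.eval₂_zero] at h2
      have h3 : ![v 0, v 1 / v 0 * v 0] = v := by
        funext i
        fin_cases i
        · simp
        · simp [h0]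
      rw [h3] at h2
      have h4 : MvPolynomial.eval v r = 0 := by
        rw [← MvPolynomial.coe_aeval_eq_eval]
        exact h2.symm
      rw [h4, zero_mul]
  exact (mul_eq_zero.1 h1).resolve_right (MvPolynomial.X_ne_zero 0)

/-- **The slope lemma.** -/
theorem slope_lemma [Infinite K] {F : Type*} [Field F] [Algebra K F] (τ : F →+* ℂ) {μ₀ : F}
    (hμ : Transcendental K μ₀) {r : MvPolynomial (Fin 2) K} (hr : r ≠ 0) :
    ∃ δ : ℝ, 0 < δ ∧ ∀ μ η : F, ‖τ μ - τ μ₀‖ < δ → ‖τ η‖ < δ → η ≠ 0 →
      MvPolynomial.aeval ![η, μ * η] r ≠ 0 := by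
  obtain ⟨q, hq, hq'⟩ := Polynomial.exists_eq_pow_rootMultiplicity_mul_and_not_dvd (HH r)
    (HH_ne hr) 0
  rw [Polynomial.C_0, sub_zero] at hq hq'
  set k := Polynomial.rootMultiplicity 0 (HH r) with hk
  have hc : q.coeff 0 ≠ 0 := fun h => hq' (Polynomial.X_dvd_iff.2 h)
  have h0 : Polynomial.aeval μ₀ (q.coeff 0) ≠ 0 := by
    intro h
    exact hμ ⟨q.coeff 0, hc, h⟩
  set f : K →+* ℂ := τ.comp (algebraMap K F) with hf
  set Φ : ℂ × ℂ → ℂ := fun z => ∑ i ∈ q.support, ((q.coeff i).map f).eval z.1 * z.2 ^ i with hΦ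
  have hΦc : Continuous Φ := by
    refine continuous_finsetSum _ fun i _ => ?_
    exact (((q.coeff i).map f).continuous.comp continuous_fst).mul (continuous_snd.pow i)
  have hτ : ∀ (p : Polynomial K) (μ : F), τ (Polynomial.aeval μ p) = (p.map f).eval (τ μ) := by
    intro p μ
    rw [Polynomial.aeval_def, Polynomial.hom_eval₂, Polynomial.eval_map]
  have hev : ∀ μ η : F, MvPolynomial.aeval ![η, μ * η] r =
      η ^ k * ∑ i ∈ q.support, Polynomial.aeval μ (q.coeff i) * η ^ i := by
    intro μ η
    rw [← HH_eval, hq, Polynomial.eval₂_mul, Polynomial.eval₂_X_pow, Polynomial.eval₂_eq_sum,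
      Polynomial.sum_def]
    rfl
  have hΦ0 : Φ (τ μ₀, 0) ≠ 0 := by
    have h1 : Φ (τ μ₀, 0) = τ (Polynomial.aeval μ₀ (q.coeff 0)) := by
      rw [hτ]
      simp only [hΦ]
      rw [Finset.sum_eq_single 0]
      · simp
      · intro i _ hi
        rw [zero_pow hi, mul_zero]
      · intro h
        rw [Polynomial.notMem_support_iff] at h
        exact absurd h hc
    rw [h1]
    exact (map_ne_zero τ).2 h0
  obtain ⟨δ, hδ, hb⟩ := Metric.mem_nhds_iff.1 (hΦc.continuousAt.eventually_ne hΦ0)
  refine ⟨δ, hδ, fun μ η h1 h2 h3 => ?_⟩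
  rw [hev]
  refine mul_ne_zero (pow_ne_zero k h3) fun h4 => ?_
  have h5 : (τ μ, τ η) ∈ Metric.ball (τ μ₀, (0 : ℂ)) δ := by
    rw [Metric.mem_ball, Prod.dist_eq, max_lt_iff, dist_eq_norm, dist_eq_norm, sub_zero]
    exact ⟨h1, h2⟩
  have h6 := hb h5
  apply h6
  have h7 := congrArg τ h4
  rw [map_sum, map_zero] at h7
  rw [← h7]
  refine Finset.sum_congr rfl fun i _ => ?_
  rw [map_mul, map_pow, hτ]

end slope

end Pool.Agent.Y720.MZ
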