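import Pool.Agent.Y720.WG.T1
import Pool.Agent.Y720.WG.T3

/-!
# Points on plane cubics over function fields (helper720)
-/

set_option autoImplicit false
set_option linter.unusedVariables false
set_option linter.unusedSectionVars false

open WeierstrassCurve Filter Topology

namespace Pool.Agent.Y720.MZ

section cub

/-- the coefficients of a cubic through the origin -/
structure Cb (R : Type*) where
  g1 : R
  g2 : R
  a : R
  b : R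
  c : R
  d0 : R
  d1 : R
  d2 : R
  d3 : R

variable {R : Type*} [CommRing R] (θ : Cb R)

/-- its value -/
def Cb.val (y z : R) : R := θ.g1 * y + θ.g2 * z + (θ.a * y ^ 2 + θ.b * y * z + θ.c * z ^ 2) +
  (θ.d0 * y ^ 3 + θ.d1 * y ^ 2 * z + θ.d2 * y * z ^ 2 + θ.d3 * z ^ 3)

/-- the flex condition -/
def Cb.A : R := θ.a * θ.g2 ^ 2 - θ.b * θ.g1 * θ.g2 + θ.c * θ.g1 ^ 2

/-- the value of the cubic part at the tangent vector -/
def Cb.B : R := θ.d0 * θ.g2 ^ 3 - θ.d1 * θ.g2 ^ 2 * θ.g1 + θ.d2 * θ.g2 * θ.g1 ^ 2 - θ.d3 * θ.g1 ^ 3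

def Cb.A1 : R := θ.b * θ.g2 - 2 * θ.c * θ.g1

def Cb.B1 : R := θ.d1 * θ.g2 ^ 2 - 2 * θ.d2 * θ.g2 * θ.g1 + 3 * θ.d3 * θ.g1 ^ 2

def Cb.B2 : R := θ.d2 * θ.g2 - 3 * θ.d3 * θ.g1

def Cb.q1 : R := 2 * θ.A * θ.A1 - 4 * θ.g2 * θ.B

def Cb.q2 : R := θ.A1 ^ 2 + 2 * θ.A * θ.c - 4 * θ.g2 * θ.B1

def Cb.q3 : R := 2 * θ.A1 * θ.c - 4 * θ.g2 * θ.B2

def Cb.q4 : R := θ.c ^ 2 - 4 * θ.g2 * θ.d3

/-- the discriminant -/
def Cb.D : R := dq θ.A θ.q1 θ.q2 θ.q3 θ.q4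

/-- the image -/
def Cb.map {S : Type*} [CommRing S] (φ : R →+* S) : Cb S :=
  ⟨φ θ.g1, φ θ.g2, φ θ.a, φ θ.b, φ θ.c, φ θ.d0, φ θ.d1, φ θ.d2, φ θ.d3⟩

lemma Cb.map_A {S : Type*} [CommRing S] (φ : R →+* S) : (θ.map φ).A = φ θ.A := by
  simp only [Cb.A, Cb.map, map_add, map_sub, map_mul, map_pow, map_ofNat]

lemma Cb.map_B {S : Type*} [CommRing S] (φ : R →+* S) : (θ.map φ).B = φ θ.B := by
  simp only [Cb.B, Cb.map, map_add, map_sub, map_mul, map_pow, map_ofNat]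

lemma Cb.map_q1 {S : Type*} [CommRing S] (φ : R →+* S) : (θ.map φ).q1 = φ θ.q1 := by
  simp only [Cb.q1, Cb.A, Cb.B, Cb.A1, Cb.map, map_add, map_sub, map_mul, map_pow, map_ofNat]

lemma Cb.map_q2 {S : Type*} [CommRing S] (φ : R →+* S) : (θ.map φ).q2 = φ θ.q2 := by
  simp only [Cb.q2, Cb.A, Cb.B1, Cb.A1, Cb.map, map_add, map_sub, map_mul, map_pow, map_ofNat]

lemma Cb.map_q3 {S : Type*} [CommRing S] (φ : R →+* S) : (θ.map φ).q3 = φ θ.q3 := by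
  simp only [Cb.q3, Cb.B2, Cb.A1, Cb.map, map_add, map_sub, map_mul, map_pow, map_ofNat]

lemma Cb.map_q4 {S : Type*} [CommRing S] (φ : R →+* S) : (θ.map φ).q4 = φ θ.q4 := by
  simp only [Cb.q4, Cb.map, map_add, map_sub, map_mul, map_pow, map_ofNat]

lemma Cb.map_D {S : Type*} [CommRing S] (φ : R →+* S) : (θ.map φ).D = φ θ.D := by
  rw [Cb.D, Cb.D, map_dq, Cb.map_A, Cb.map_q1, Cb.map_q2, Cb.map_q3, Cb.map_q4]

lemma Cb.map_val {S : Type*} [CommRing S] (φ : R →+* S) (y z : R) :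
    (θ.map φ).val (φ y) (φ z) = φ (θ.val y z) := by
  simp only [Cb.val, Cb.map, map_add, map_sub, map_mul, map_pow, map_ofNat]

end cub

section pt

variable {F : Type*} [Field F]

/-- a point of the cubic from a point of the quartic -/
lemma Cb.pt (θ : Cb F) {t Y : F}
    (hY : Y ^ 2 = θ.A ^ 2 + θ.q1 * t + θ.q2 * t ^ 2 + θ.q3 * t ^ 3 + θ.q4 * t ^ 4)
    (hD : θ.A + θ.A1 * t + θ.c * t ^ 2 + Y ≠ 0) :
    θ.val (-2 * θ.g2 * t / (θ.A + θ.A1 * t + θ.c * t ^ 2 + Y) * θ.g2)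
      (-2 * θ.g2 * t / (θ.A + θ.A1 * t + θ.c * t ^ 2 + Y) * (t - θ.g1)) = 0 := by
  set D := θ.A + θ.A1 * t + θ.c * t ^ 2 + Y with hDe
  set T := -2 * θ.g2 * t / D with hT
  have h1 : T * D = -2 * θ.g2 * t := by rw [hT]; field_simp
  have h2 : θ.val (T * θ.g2) (T * (t - θ.g1)) = T * (θ.g2 * t + T * (θ.A + θ.A1 * t + θ.c * t ^ 2) +
      T ^ 2 * (θ.B + θ.B1 * t + θ.B2 * t ^ 2 + θ.d3 * t ^ 3)) := by
    simp only [Cb.val, Cb.A, Cb.A1, Cb.B, Cb.B1, Cb.B2]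
    ring
  rw [h2]
  have h3 : D ^ 2 * (θ.g2 * t + T * (θ.A + θ.A1 * t + θ.c * t ^ 2) +
      T ^ 2 * (θ.B + θ.B1 * t + θ.B2 * t ^ 2 + θ.d3 * t ^ 3)) = 0 := by
    have e1 : D ^ 2 * (θ.g2 * t + T * (θ.A + θ.A1 * t + θ.c * t ^ 2) +
      T ^ 2 * (θ.B + θ.B1 * t + θ.B2 * t ^ 2 + θ.d3 * t ^ 3)) =
      θ.g2 * t * D ^ 2 + (T * D) * D * (θ.A + θ.A1 * t + θ.c * t ^ 2) +
      (T * D) ^ 2 * (θ.B + θ.B1 * t + θ.B2 * t ^ 2 + θ.d3 * t ^ 3) := by ring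
    rw [e1, h1, hDe]
    simp only [Cb.q1, Cb.q2, Cb.q3, Cb.q4] at hY
    linear_combination (θ.g2 * t) * hY
  rw [(mul_eq_zero.1 h3).resolve_left (pow_ne_zero 2 hD), mul_zero]

end pt

section main

variable {K : Type*} [Field K] [CharZero K]

/-- **Points on a family of plane cubics through the origin.** -/
theorem cubic_points {F : Type*} [Field F] [CharZero F] [Algebra K F] (τ : F →+* ℂ)
    (ι : Polynomial K →ₐ[K] F) (hι : Function.Injective ι) (θ : Cb (Polynomial K))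
    {M : Type*} [Field M] [Algebra K M] {s₀ : M} (hA : θ.A ≠ 0) (hA0 : Polynomial.aeval s₀ θ.A = 0)
    (hB0 : Polynomial.aeval s₀ θ.B ≠ 0) (hg0 : Polynomial.aeval s₀ θ.g2 ≠ 0) (hD : θ.D ≠ 0)
    (hμ : Transcendental K (-ι θ.g1 / ι θ.g2)) {r : MvPolynomial (Fin 2) K} (hr : r ≠ 0)
    {ε : ℝ} (hε : 0 < ε) :
    ∃ y z : F, (θ.map (ι : Polynomial K →+* F)).val y z = 0 ∧ ‖τ y‖ < ε ∧ ‖τ z‖ < ε ∧
      MvPolynomial.aeval ![y, z] r ≠ 0 := by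
  classical
  have hι0 : ∀ x : Polynomial K, x ≠ 0 → ι x ≠ 0 := fun x hx h0 => hx (hι (by rw [h0, map_zero]))
  have hg : θ.g2 ≠ 0 := by
    intro h; rw [h, map_zero] at hg0; exact hg0 rfl
  set κ := θ.map (ι : Polynomial K →+* F) with hκ
  have hκA : κ.A = ι θ.A := Cb.map_A _ _
  have hκg : κ.g2 = ι θ.g2 := rfl
  have hκg1 : κ.g1 = ι θ.g1 := rfl
  have hA' : κ.A ≠ 0 := by rw [hκA]; exact hι0 _ hA
  have hg' : κ.g2 ≠ 0 := hι0 _ hg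
  have hM : CharZero M := charZero_of_injective_algebraMap (algebraMap K M).injective
  have hq1 : Polynomial.aeval s₀ θ.q1 ≠ 0 := by
    rw [Cb.q1, map_sub, map_mul, map_mul, hA0, mul_zero, zero_mul, zero_sub, neg_ne_zero,
      map_mul, map_mul]
    refine mul_ne_zero (mul_ne_zero ?_ hg0) hB0
    rw [map_ofNat]; norm_num
  obtain ⟨δ, hδ, hb⟩ := slope_lemma τ hμ hr
  -- continuity
  have c1 : ContinuousAt (fun z : ℂ × ℂ => -2 * τ κ.g2 * z.1 /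
      (τ κ.A + τ κ.A1 * z.1 + τ κ.c * z.1 ^ 2 + z.2)) (0, τ κ.A) := by
    refine ContinuousAt.div (by fun_prop) (by fun_prop) ?_
    have : τ κ.A ≠ 0 := (map_ne_zero τ).2 hA'
    simpa [← two_mul] using this
  have c2 : ContinuousAt (fun z : ℂ × ℂ =>
      τ κ.A + τ κ.A1 * z.1 + τ κ.c * z.1 ^ 2 + z.2) (0, τ κ.A) := by fun_prop
  have n2 : ∀ᶠ z in 𝓝 ((0 : ℂ), τ κ.A), τ κ.A + τ κ.A1 * z.1 + τ κ.c * z.1 ^ 2 + z.2 ≠ 0 := by
    refine c2.eventually_ne ?_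
    have : τ κ.A ≠ 0 := (map_ne_zero τ).2 hA'
    simpa [← two_mul] using this
  have n3 : ∀ᶠ z in 𝓝 ((0 : ℂ), τ κ.A), ‖-2 * τ κ.g2 * z.1 /
      (τ κ.A + τ κ.A1 * z.1 + τ κ.c * z.1 ^ 2 + z.2) * τ κ.g2‖ < min δ ε := by
    have := (c1.mul_const (τ κ.g2)).norm
    refine this.tendsto.eventually_lt_const ?_
    simpa using lt_min hδ hε
  have n4 : ∀ᶠ z in 𝓝 ((0 : ℂ), τ κ.A), ‖-2 * τ κ.g2 * z.1 /
      (τ κ.A + τ κ.A1 * z.1 + τ κ.c * z.1 ^ 2 + z.2) * (z.1 - τ κ.g1)‖ < ε := by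
    have h1 : ContinuousAt (fun z : ℂ × ℂ => z.1 - τ κ.g1) (0, τ κ.A) := by fun_prop
    have := (c1.mul h1).norm
    refine this.tendsto.eventually_lt_const ?_
    simpa using hε
  have n5 : ∀ᶠ z in 𝓝 ((0 : ℂ), τ κ.A), ‖z.1 / τ κ.g2‖ < δ := by
    have h1 : ContinuousAt (fun z : ℂ × ℂ => z.1 / τ κ.g2) (0, τ κ.A) :=
      ContinuousAt.div (by fun_prop) (by fun_prop) ((map_ne_zero τ).2 hg')
    refine h1.norm.tendsto.eventually_lt_const ?_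
    simpa using hδ
  obtain ⟨ρ, hρ, hball⟩ := Metric.mem_nhds_iff.1 (n2.and (n3.and (n4.and n5)))
  -- the point of the quartic
  have hdq : dsc κ.q2 (rb κ.A κ.q1 κ.q3 κ.q4) (rc κ.A κ.q1 κ.q2 κ.q3 κ.q4) ≠ 0 := by
    have : κ.D = dsc κ.q2 (rb κ.A κ.q1 κ.q3 κ.q4) (rc κ.A κ.q1 κ.q2 κ.q3 κ.q4) := rfl
    rw [← this, Cb.map_D]
    exact hι0 _ hD
  obtain ⟨t, Y, ht, h1, h2, h3⟩ := quartic_dense τ (w := κ.A) (q₁ := κ.q1) (q₂ := κ.q2)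
    (q₃ := κ.q3) (q₄ := κ.q4) hA' hdq (by
      rw [Cb.map_A, Cb.map_q1, Cb.map_q2, Cb.map_q3, Cb.map_q4]
      intro h n hn
      exact io_function (ι : Polynomial K →+* F) hι hA hA0 hq1 h n hn) hρ
  have hmem : (τ t, τ Y) ∈ Metric.ball ((0 : ℂ), τ κ.A) ρ := by
    rw [Metric.mem_ball, Prod.dist_eq, max_lt_iff, dist_eq_norm, dist_eq_norm, sub_zero, ← map_sub]
    exact ⟨h1, h2⟩
  obtain ⟨m1, m2, m3, m4⟩ := hball hmem
  have hDt : κ.A + κ.A1 * t + κ.c * t ^ 2 + Y ≠ 0 := by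
    intro h0
    apply m1
    have := congrArg τ h0
    simpa only [map_add, map_mul, map_pow, map_zero] using this
  set T := -2 * κ.g2 * t / (κ.A + κ.A1 * t + κ.c * t ^ 2 + Y) with hT
  have hτT : τ T = -2 * τ κ.g2 * τ t / (τ κ.A + τ κ.A1 * τ t + τ κ.c * τ t ^ 2 + τ Y) := by
    rw [hT]; simp only [map_div₀, map_add, map_mul, map_pow, map_neg, map_ofNat]
  have hT0 : T ≠ 0 := div_ne_zero (mul_ne_zero (mul_ne_zero (by norm_num) hg') ht) hDt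
  refine ⟨T * κ.g2, T * (t - κ.g1), Cb.pt κ h3 hDt, ?_, ?_, ?_⟩
  · rw [map_mul, hτT]
    exact m2.trans_le (min_le_right _ _)
  · rw [map_mul, hτT, map_sub]
    exact m3
  · have h5 := hb ((t - κ.g1) / κ.g2) (T * κ.g2) (by
      have : (t - κ.g1) / κ.g2 = t / κ.g2 + -ι θ.g1 / ι θ.g2 := by
        rw [hκg, hκg1]; ring
      rw [this, map_add, add_sub_cancel_right, map_div₀]
      exact m4) (by
      rw [map_mul, hτT]
      exact m2.trans_le (min_le_left _ _)) (mul_ne_zero hT0 hg')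
    have h6 : (t - κ.g1) / κ.g2 * (T * κ.g2) = T * (t - κ.g1) := by
      field_simp
    rwa [h6] at h5

end main

end Pool.Agent.Y720.MZ
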