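import Pool.Agent.Y720.WG.T2
import Pool.Agent.Y720.WG.T4

/-!
# Families of plane cubics over a conic (helper720)
-/

set_option autoImplicit false
set_option linter.unusedVariables false
set_option linter.unusedSectionVars false

open WeierstrassCurve Filter Topology

namespace Pool.Agent.Y720.MZ

/-- the monomials of degree at most two -/
def mx {R : Type*} [CommRing R] (x₁ x₂ : R) : Fin 6 → R :=
  ![1, x₁, x₂, x₁ ^ 2, x₁ * x₂, x₂ ^ 2]

/-- the monomials of degree at most three -/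
def my {R : Type*} [CommRing R] (y₁ y₂ : R) : Fin 10 → R :=
  ![1, y₁, y₂, y₁ ^ 2, y₁ * y₂, y₂ ^ 2, y₁ ^ 3, y₁ ^ 2 * y₂, y₁ * y₂ ^ 2, y₂ ^ 3]

section fam

variable {K : Type*} [Field K] (c : Fin 6 → Fin 10 → K)

/-- the value of the polynomial -/
def vF {R : Type*} [CommRing R] [Algebra K R] (x₁ x₂ y₁ y₂ : R) : R :=
  ∑ i, ∑ k, algebraMap K R (c i k) * mx x₁ x₂ i * my y₁ y₂ k

/-- the coefficients of the cubics -/
def cof {R : Type*} [CommRing R] [Algebra K R] (k : Fin 10) (x₁ x₂ : R) : R :=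
  ∑ i, algebraMap K R (c i k) * mx x₁ x₂ i

/-- the coefficients of the conics -/
def pof {R : Type*} [CommRing R] [Algebra K R] (i : Fin 6) (y₁ y₂ : R) : R :=
  ∑ k, algebraMap K R (c i k) * my y₁ y₂ k

lemma vF_cof {R : Type*} [CommRing R] [Algebra K R] (x₁ x₂ y₁ y₂ : R) :
    vF c x₁ x₂ y₁ y₂ = ∑ k, cof c k x₁ x₂ * my y₁ y₂ k := by
  unfold vF cof
  rw [Finset.sum_comm]
  refine Finset.sum_congr rfl fun k _ => ?_
  rw [Finset.sum_mul]

lemma vF_pof {R : Type*} [CommRing R] [Algebra K R] (x₁ x₂ y₁ y₂ : R) :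
    vF c x₁ x₂ y₁ y₂ = ∑ i, pof c i y₁ y₂ * mx x₁ x₂ i := by
  unfold vF pof
  refine Finset.sum_congr rfl fun i _ => ?_
  rw [Finset.sum_mul]
  refine Finset.sum_congr rfl fun k _ => ?_
  ring

/-- the cubic at a point -/
def cub {R : Type*} [CommRing R] [Algebra K R] (x₁ x₂ : R) : Cb R :=
  ⟨cof c 1 x₁ x₂, cof c 2 x₁ x₂, cof c 3 x₁ x₂, cof c 4 x₁ x₂, cof c 5 x₁ x₂, cof c 6 x₁ x₂,
    cof c 7 x₁ x₂, cof c 8 x₁ x₂, cof c 9 x₁ x₂⟩

open Polynomial in
/-- the denominator of the parametrization -/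
noncomputable def qh : Polynomial K := C (c 3 0) + C (c 4 0) * X + C (c 5 0) * X ^ 2

open Polynomial in
/-- the monomials on the conic -/
noncomputable def mh : Fin 6 → Polynomial K :=
  ![qh c ^ 2, -(X * qh c), -(X ^ 2 * qh c), X ^ 2, X ^ 3, X ^ 4]

/-- the coefficients of the cubics over the conic -/
noncomputable def ch (k : Fin 10) : Polynomial K := ∑ i, Polynomial.C (c i k) * mh c i

/-- the cubic over the conic -/
noncomputable def th3 : Cb (Polynomial K) :=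
  ⟨ch c 1, ch c 2, ch c 3, ch c 4, ch c 5, ch c 6, ch c 7, ch c 8, ch c 9⟩

lemma ch_zero (h0 : c 0 0 = 0) (h1 : c 1 0 = 0) (h2 : c 2 0 = 1) : ch c 0 = 0 := by
  simp only [ch, mh, Fin.sum_univ_succ, Fin.sum_univ_zero]
  simp [h0, h1, h2, qh, Fin.succ]
  ring

/-- the monomials at the points of the conic -/
lemma mx_conic {B : Type*} [Field B] [Algebra K B] (φ : Polynomial K →ₐ[K] B)
    (hq : φ (qh c) ≠ 0) (i : Fin 6) :
    φ (mh c i) = φ (qh c) ^ 2 * mx (-φ Polynomial.X / φ (qh c)) (-φ Polynomial.X ^ 2 / φ (qh c)) i := by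
  fin_cases i
  · simp [mh, mx]
  · simp [mh, mx]; field_simp
  · simp [mh, mx]; field_simp
  · simp [mh, mx]; field_simp
  · simp [mh, mx]; field_simp
  · simp [mh, mx]; field_simp

lemma ch_conic {B : Type*} [Field B] [Algebra K B] (φ : Polynomial K →ₐ[K] B)
    (hq : φ (qh c) ≠ 0) (k : Fin 10) :
    φ (ch c k) = φ (qh c) ^ 2 *
      cof c k (-φ Polynomial.X / φ (qh c)) (-φ Polynomial.X ^ 2 / φ (qh c)) := by
  unfold ch cof
  rw [map_sum, Finset.mul_sum]
  refine Finset.sum_congr rfl fun i _ => ?_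
  rw [map_mul, mx_conic c φ hq]
  have : φ (Polynomial.C (c i k)) = algebraMap K B (c i k) := φ.commutes _
  rw [this]
  ring

lemma val_conic {B : Type*} [Field B] [Algebra K B] (φ : Polynomial K →ₐ[K] B)
    (hq : φ (qh c) ≠ 0) (h0 : c 0 0 = 0) (h1 : c 1 0 = 0) (h2 : c 2 0 = 1) (y z : B) :
    φ (qh c) ^ 2 * vF c (-φ Polynomial.X / φ (qh c)) (-φ Polynomial.X ^ 2 / φ (qh c)) y z =
      ((th3 c).map (φ : Polynomial K →+* B)).val y z := by
  rw [vF_cof, Finset.mul_sum]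
  have h3 : ∀ k, φ (qh c) ^ 2 * (cof c k (-φ Polynomial.X / φ (qh c))
      (-φ Polynomial.X ^ 2 / φ (qh c)) * my y z k) = φ (ch c k) * my y z k := by
    intro k
    rw [ch_conic c φ hq]; ring
  rw [Finset.sum_congr rfl fun k _ => h3 k]
  simp only [Fin.sum_univ_succ, Fin.sum_univ_zero]
  rw [ch_zero c h0 h1 h2, map_zero, zero_mul, zero_add]
  simp [Cb.val, Cb.map, th3, my, Fin.succ]
  ring

end fam

end Pool.Agent.Y720.MZ
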