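import Pool.Agent.Y720.WG.T5

/-!
# Rational points on conic bundles over the plane (helper720)
-/

set_option autoImplicit false
set_option linter.unusedVariables false
set_option linter.unusedSectionVars false

open WeierstrassCurve Filter Topology

namespace Pool.Agent.Y720.MZ

section maps

variable {R S : Type*} [CommRing R] [CommRing S]

lemma map_mx (φ : R →+* S) (x₁ x₂ : R) (i : Fin 6) : φ (mx x₁ x₂ i) = mx (φ x₁) (φ x₂) i := by
  fin_cases i <;> simp [mx]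

lemma map_my (φ : R →+* S) (y₁ y₂ : R) (k : Fin 10) : φ (my y₁ y₂ k) = my (φ y₁) (φ y₂) k := by
  fin_cases k <;> simp [my]

variable {K : Type*} [Field K] [Algebra K R] [Algebra K S] (c : Fin 6 → Fin 10 → K)

lemma map_pof (φ : R →ₐ[K] S) (i : Fin 6) (y₁ y₂ : R) :
    φ (pof c i y₁ y₂) = pof c i (φ y₁) (φ y₂) := by
  unfold pof
  rw [map_sum]
  refine Finset.sum_congr rfl fun k _ => ?_
  rw [map_mul, φ.commutes]
  congr 1
  exact map_my (φ : R →+* S) y₁ y₂ k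

lemma map_vF (φ : R →ₐ[K] S) (x₁ x₂ y₁ y₂ : R) :
    φ (vF c x₁ x₂ y₁ y₂) = vF c (φ x₁) (φ x₂) (φ y₁) (φ y₂) := by
  rw [vF_pof, vF_pof, map_sum]
  refine Finset.sum_congr rfl fun i _ => ?_
  rw [map_mul, map_pof]
  congr 1
  exact map_mx (φ : R →+* S) x₁ x₂ i

/-- the derivative in the direction of the second coordinate -/
def d2 (x₁ x₂ y₁ y₂ : R) : R :=
  pof c 2 y₁ y₂ + pof c 4 y₁ y₂ * x₁ + 2 * pof c 5 y₁ y₂ * x₂

lemma map_d2 (φ : R →ₐ[K] S) (x₁ x₂ y₁ y₂ : R) :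
    φ (d2 c x₁ x₂ y₁ y₂) = d2 c (φ x₁) (φ x₂) (φ y₁) (φ y₂) := by
  simp only [d2, map_add, map_mul, map_pof, map_ofNat]

end maps

section final

variable {K : Type*} [Field K]

/-- **The points of a conic.** -/
theorem conic_pts2 [Infinite K] (c : Fin 6 → Fin 10 → K) {a₁ a₂ b₁ b₂ : K} (h : vF c a₁ a₂ b₁ b₂ = 0)
    (h3 : pof c 3 b₁ b₂ ≠ 0) (hd : d2 c a₁ a₂ b₁ b₂ ≠ 0) {φ : Polynomial K} (hφ : φ ≠ 0) :
    ∃ x₁ x₂ : K, vF c x₁ x₂ b₁ b₂ = 0 ∧ φ.eval x₂ ≠ 0 := by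
  classical
  set p : Fin 6 → K := fun i => pof c i b₁ b₂ with hp
  set Q : Polynomial K := .C (p 3) * .X ^ 2 + .C (p 4) * .X + .C (p 5) with hQ
  set L : K := p 1 + 2 * p 3 * a₁ + p 4 * a₂ with hL
  set d : K := d2 c a₁ a₂ b₁ b₂ with hdd
  set Pm : Polynomial K := Q * ∏ z ∈ φ.roots.toFinset,
    (.C (z - a₂) * Q + .C L * .X + .C d) with hPm
  have hQ0 : Q ≠ 0 := by
    intro h0
    have := congrArg (fun f : Polynomial K => f.coeff 2) h0
    simp [hQ, Polynomial.coeff_X, Polynomial.coeff_C] at this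
    exact h3 this
  have hfac : ∀ z : K, (.C (z - a₂) * Q + .C L * .X + .C d : Polynomial K) ≠ 0 := by
    intro z h0
    by_cases hz : z = a₂
    · have := congrArg (fun f : Polynomial K => f.coeff 0) h0
      simp [hQ, hz] at this
      exact hd this
    · have e2 : (.C (z - a₂) * Q + .C L * .X + .C d : Polynomial K).coeff 2 = (z - a₂) * p 3 := by
        rw [hQ, Polynomial.coeff_add, Polynomial.coeff_add, Polynomial.coeff_C_mul,
          Polynomial.coeff_C_mul, Polynomial.coeff_add, Polynomial.coeff_add,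
          Polynomial.coeff_C_mul, Polynomial.coeff_C_mul, Polynomial.coeff_X_pow,
          Polynomial.coeff_X, Polynomial.coeff_C, Polynomial.coeff_C]
        simp
      rw [h0, Polynomial.coeff_zero] at e2
      rcases mul_eq_zero.1 e2.symm with h1 | h1
      · exact hz (sub_eq_zero.1 h1)
      · exact h3 h1
  have hPm0 : Pm ≠ 0 := mul_ne_zero hQ0 (Finset.prod_ne_zero_iff.2 fun z _ => hfac z)
  obtain ⟨m, hm⟩ : ∃ m : K, Pm.eval m ≠ 0 := by
    by_contra hcon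
    push Not at hcon
    exact hPm0 (Polynomial.funext fun x => by rw [hcon, Polynomial.eval_zero])
  rw [hPm, Polynomial.eval_mul, Polynomial.eval_prod] at hm
  have hm1 : Q.eval m ≠ 0 := left_ne_zero_of_mul hm
  have hm2 := Finset.prod_ne_zero_iff.1 (right_ne_zero_of_mul hm)
  set σ : K := -(L * m + d) / Q.eval m with hσ
  have hσ1 : σ * Q.eval m = -(L * m + d) := by rw [hσ]; field_simp
  have hQe : Q.eval m = p 3 * m ^ 2 + p 4 * m + p 5 := by simp [hQ]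
  refine ⟨a₁ + σ * m, a₂ + σ, ?_, fun h0 => ?_⟩
  · have e1 : ∀ x₁ x₂ : K, vF c x₁ x₂ b₁ b₂ = p 0 + p 1 * x₁ + p 2 * x₂ + p 3 * x₁ ^ 2 +
        p 4 * (x₁ * x₂) + p 5 * x₂ ^ 2 := by
      intro x₁ x₂
      rw [vF_pof]
      simp only [Fin.sum_univ_succ, Fin.sum_univ_zero]
      simp [mx, hp, Fin.succ]
      ring
    rw [e1] at h ⊢
    have e2 : d = p 2 + p 4 * a₁ + 2 * p 5 * a₂ := rfl
    rw [hQe] at hσ1
    rw [hL, e2] at hσ1
    linear_combination h + σ * hσ1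
  · have h1 : a₂ + σ ∈ φ.roots.toFinset := by
      rw [Multiset.mem_toFinset, Polynomial.mem_roots hφ]
      exact h0
    apply hm2 _ h1
    simp only [Polynomial.eval_add, Polynomial.eval_mul, Polynomial.eval_C, Polynomial.eval_X,
      add_sub_cancel_left]
    linear_combination hσ1

/-- the transcendence of a quotient -/
theorem transc [Infinite K] {g₁ g₂ : Polynomial K} (h2 : g₂ ≠ 0)
    (h : ∀ ρ : K, g₁ + Polynomial.C ρ * g₂ ≠ 0) :
    Transcendental K (-(algebraMap (Polynomial K) (RatFunc K) g₁) /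
      algebraMap (Polynomial K) (RatFunc K) g₂) := by
  classical
  set ι := algebraMap (Polynomial K) (RatFunc K) with hι
  have hinj : Function.Injective ι := RatFunc.algebraMap_injective K
  have hι0 : ∀ x : Polynomial K, x ≠ 0 → ι x ≠ 0 := fun x hx h0 => hx (hinj (by rw [h0, map_zero]))
  rintro ⟨p, hp, hp0⟩
  set μ : RatFunc K := -(ι g₁) / ι g₂ with hμ
  set Pr : Polynomial K := ∏ z ∈ p.roots.toFinset, (g₁ + Polynomial.C z * g₂) with hPr
  have hPr0 : Pr ≠ 0 := Finset.prod_ne_zero_iff.2 fun z _ => h z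
  obtain ⟨B, e, hBp, hB⟩ := exists_spec (K := K) {μ, ι g₁, ι g₂, (ι Pr)⁻¹, ι Pr}
  have m1 : μ ∈ B := hB _ (by simp)
  have m2 : ι g₁ ∈ B := hB _ (by simp)
  have m3 : ι g₂ ∈ B := hB _ (by simp)
  have m4 : (ι Pr)⁻¹ ∈ B := hB _ (by simp)
  have m5 : ι Pr ∈ B := hB _ (by simp)
  -- the value of the slope is a root
  have k1 : p.eval (e ⟨μ, m1⟩) = 0 := by
    have h3 : Polynomial.aeval (⟨μ, m1⟩ : B) p = 0 := by
      apply Subtype.ext
      have := Polynomial.aeval_algHom_apply B.val (⟨μ, m1⟩ : B) p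
      change B.val (Polynomial.aeval (⟨μ, m1⟩ : B) p) = 0
      rw [← this]
      exact hp0
    have h4 := Polynomial.aeval_algHom_apply e (⟨μ, m1⟩ : B) p
    rw [h3, map_zero, Polynomial.aeval_def, Polynomial.eval₂_eq_eval_map] at h4
    simpa using h4
  have k2 : e ⟨μ, m1⟩ * e ⟨ι g₂, m3⟩ = -e ⟨ι g₁, m2⟩ := by
    rw [← map_mul, ← map_neg]
    congr 1
    apply Subtype.ext
    change μ * ι g₂ = -ι g₁
    rw [hμ, div_mul_cancel₀ _ (hι0 _ h2)]
  have k3 : e ⟨ι Pr, m5⟩ = 0 := by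
    have h5 : e ⟨μ, m1⟩ ∈ p.roots.toFinset := by
      rw [Multiset.mem_toFinset, Polynomial.mem_roots hp]
      exact k1
    obtain ⟨q, hq⟩ := Finset.dvd_prod_of_mem (fun z => g₁ + Polynomial.C z * g₂) h5
    have h6 : ι Pr = (ι g₁ + algebraMap K (RatFunc K) (e ⟨μ, m1⟩) * ι g₂) * ι q := by
      rw [hPr, hq, map_mul, map_add, map_mul]
      rfl
    have h7 : algebraMap K (RatFunc K) (e ⟨μ, m1⟩) ∈ B := B.algebraMap_mem _
    have hq0 : ι q ∈ B := hBp q
    have h8 : (⟨ι Pr, m5⟩ : B) = (⟨ι g₁, m2⟩ + ⟨_, h7⟩ * ⟨ι g₂, m3⟩) * ⟨ι q, hq0⟩ :=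
      Subtype.ext h6
    rw [h8, map_mul, map_add, map_mul]
    have h9 : e ⟨_, h7⟩ = e ⟨μ, m1⟩ := e.commutes _
    rw [h9, k2]
    ring
  have k4 : e ⟨ι Pr, m5⟩ * e ⟨(ι Pr)⁻¹, m4⟩ = 1 := by
    rw [← map_mul]
    have : (⟨ι Pr, m5⟩ * ⟨(ι Pr)⁻¹, m4⟩ : B) = 1 :=
      Subtype.ext (mul_inv_cancel₀ (hι0 _ hPr0))
    rw [this, map_one]
  rw [k3, zero_mul] at k4
  exact zero_ne_one k4

end final

end Pool.Agent.Y720.MZ
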