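import Pool.Agent.Y720.WG.T6

/-!
# Rational points on conic bundles over the plane: density (helper720)
-/

set_option autoImplicit false
set_option linter.unusedVariables false
set_option linter.unusedSectionVars false

open WeierstrassCurve Filter Topology

namespace Pool.Agent.Y720.MZ

section kp

variable {K : Type*} [Field K] [NumberField K] (c : Fin 6 → Fin 10 → K)

/-- **Rational points outside a hypersurface.** -/
theorem kpoint (h0 : c 0 0 = 0) (h1 : c 1 0 = 0) (h2 : c 2 0 = 1) (h3 : c 3 0 ≠ 0)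
    {M : Type*} [Field M] [Algebra K M] {s₀ : M} (hA : (th3 c).A ≠ 0)
    (hA0 : Polynomial.aeval s₀ (th3 c).A = 0) (hB0 : Polynomial.aeval s₀ (th3 c).B ≠ 0)
    (hg0 : Polynomial.aeval s₀ (th3 c).g2 ≠ 0) (hD : (th3 c).D ≠ 0)
    (hμ : ∀ ρ : K, (th3 c).g1 + Polynomial.C ρ * (th3 c).g2 ≠ 0)
    {ρ : MvPolynomial (Fin 3) K} (hρ : ρ ≠ 0) :
    ∃ x₁ x₂ y₁ y₂ : K, vF c x₁ x₂ y₁ y₂ = 0 ∧ MvPolynomial.eval ![x₂, y₁, y₂] ρ ≠ 0 := by
  classical
  have hg2 : (th3 c).g2 ≠ 0 := by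
    intro h; rw [h, map_zero] at hg0; exact hg0 rfl
  obtain ⟨τ, -⟩ := exists_emb K
  let ι : Polynomial K →ₐ[K] RatFunc K := IsScalarTower.toAlgHom K (Polynomial K) (RatFunc K)
  have hιe : ∀ q, ι q = algebraMap (Polynomial K) (RatFunc K) q := fun q => rfl
  have hι : Function.Injective ι := RatFunc.algebraMap_injective K
  have hι0 : ∀ x : Polynomial K, x ≠ 0 → ι x ≠ 0 := fun x hx h0 => hx (hι (by rw [h0, map_zero]))
  let _ : Algebra K ℂ := (τ.comp (algebraMap K (RatFunc K))).toAlgebra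
  let T : RatFunc K →ₐ[K] ℂ := { τ with commutes' := fun r => rfl }
  have hT : ∀ x, T x = τ x := fun x => rfl
  -- the point of the conic
  have hq0 : qh c ≠ 0 := by
    intro h
    have := congrArg (fun f : Polynomial K => f.coeff 0) h
    simp [qh] at this
    exact h3 this
  have hqι : ι (qh c) ≠ 0 := hι0 _ hq0
  set X₁ : RatFunc K := -ι Polynomial.X / ι (qh c) with hX1
  set X₂ : RatFunc K := -ι Polynomial.X ^ 2 / ι (qh c) with hX2
  -- the derivative does not vanish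
  have hd0 : d2 c X₁ X₂ 0 0 ≠ 0 := by
    have e1 : ∀ i, pof c i (0 : RatFunc K) 0 = algebraMap K (RatFunc K) (c i 0) := by
      intro i
      unfold pof
      rw [Finset.sum_eq_single 0]
      · simp [my]
      · intro k _ hk
        have : my (0 : RatFunc K) 0 k = 0 := by
          fin_cases k <;> simp [my] at hk ⊢
        rw [this, mul_zero]
      · intro h; exact absurd (Finset.mem_univ _) h
    have e2 : ι (qh c) * d2 c X₁ X₂ 0 0 =
        ι (Polynomial.C (c 3 0) - Polynomial.C (c 5 0) * Polynomial.X ^ 2) := by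
      rw [d2, e1, e1, e1, h2]
      have e3 : ι (qh c) = algebraMap K (RatFunc K) (c 3 0) +
          algebraMap K (RatFunc K) (c 4 0) * ι Polynomial.X +
          algebraMap K (RatFunc K) (c 5 0) * ι Polynomial.X ^ 2 := by
        rw [qh, map_add, map_add, map_mul, map_mul, map_pow]
        rfl
      have e4 : ι (Polynomial.C (c 3 0) - Polynomial.C (c 5 0) * Polynomial.X ^ 2) =
          algebraMap K (RatFunc K) (c 3 0) - algebraMap K (RatFunc K) (c 5 0) *
            ι Polynomial.X ^ 2 := by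
        rw [map_sub, map_mul, map_pow]
        rfl
      rw [e4, hX1, hX2, map_one]
      field_simp
      rw [e3]
      ring
    intro h
    rw [h, mul_zero] at e2
    have e5 : (Polynomial.C (c 3 0) - Polynomial.C (c 5 0) * Polynomial.X ^ 2 : Polynomial K) ≠ 0 := by
      intro h'
      have := congrArg (fun f : Polynomial K => f.coeff 0) h'
      simp at this
      exact h3 this
    exact hι0 _ e5 e2.symm
  have hcont : Continuous fun z : ℂ × ℂ => d2 c (T X₁) (T X₂) z.1 z.2 := by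
    have e1 : ∀ k, Continuous fun z : ℂ × ℂ => my z.1 z.2 k := by
      intro k
      fin_cases k <;> simp [my] <;> fun_prop
    unfold d2 pof
    fun_prop
  have hev : ∀ᶠ z in 𝓝 ((0 : ℂ), (0 : ℂ)), d2 c (T X₁) (T X₂) z.1 z.2 ≠ 0 := by
    refine hcont.continuousAt.eventually_ne ?_
    have : d2 c (T X₁) (T X₂) 0 0 = T (d2 c X₁ X₂ 0 0) := by
      rw [map_d2, map_zero]
    rw [this]
    exact (map_ne_zero (T : RatFunc K →+* ℂ)).2 hd0
  obtain ⟨ε, hε, hball⟩ := Metric.mem_nhds_iff.1 hev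
  -- the polynomial
  set R := MvPolynomial.finSuccEquiv K 2 ρ with hR
  have hR0 : R ≠ 0 := by
    intro h
    exact hρ ((MvPolynomial.finSuccEquiv K 2).injective (by rw [← hR, h, map_zero]))
  set P3 : MvPolynomial (Fin 2) K := ∑ k, MvPolynomial.C (c 3 k) *
    my (MvPolynomial.X 0) (MvPolynomial.X 1) k with hP3
  have hP3e : ∀ {B : Type _} [CommRing B] [Algebra K B] (y z : B),
      MvPolynomial.aeval ![y, z] P3 = pof c 3 y z := by
    intro B _ _ y z
    rw [hP3, pof, map_sum]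
    refine Finset.sum_congr rfl fun k _ => ?_
    rw [map_mul, MvPolynomial.aeval_C]
    congr 1
    have := map_my ((MvPolynomial.aeval ![y, z] : MvPolynomial (Fin 2) K →ₐ[K] B) :
      MvPolynomial (Fin 2) K →+* B) (MvPolynomial.X 0) (MvPolynomial.X 1) k
    simpa using this
  have hP30 : P3 ≠ 0 := by
    intro h
    have e1 := hP3e (B := K) 0 0
    rw [h, map_zero, pof, Finset.sum_eq_single 0] at e1
    · simp [my] at e1
      exact h3 e1.symm
    · intro k _ hk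
      have : my (0 : K) 0 k = 0 := by
        fin_cases k <;> simp [my] at hk ⊢
      rw [this, mul_zero]
    · intro h; exact absurd (Finset.mem_univ _) h
  obtain ⟨y, z, k1, k2, k3, k4⟩ := cubic_points τ ι hι (th3 c) hA hA0 hB0 hg0 hD
    (by
      have := transc hg2 hμ
      exact this) (mul_ne_zero (Polynomial.leadingCoeff_ne_zero.2 hR0) hP30) hε
  have k5 : d2 c X₁ X₂ y z ≠ 0 := by
    have : (τ y, τ z) ∈ Metric.ball ((0 : ℂ), (0 : ℂ)) ε := by
      rw [Metric.mem_ball, Prod.dist_eq, max_lt_iff, dist_eq_norm, dist_eq_norm, sub_zero, sub_zero]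
      exact ⟨k2, k3⟩
    have h5 := hball this
    intro h6
    apply h5
    change d2 c (T X₁) (T X₂) (T y) (T z) = 0
    rw [← map_d2, h6, map_zero]
  have k6 : vF c X₁ X₂ y z = 0 := by
    have := val_conic c ι hqι h0 h1 h2 y z
    rw [k1] at this
    exact (mul_eq_zero.1 this).resolve_left (pow_ne_zero 2 hqι)
  rw [map_mul] at k4
  -- specialization
  set V := MvPolynomial.aeval ![y, z] R.leadingCoeff * MvPolynomial.aeval ![y, z] P3 with hV
  obtain ⟨B, e, -, hB⟩ := exists_spec (K := K) {X₁, X₂, y, z, V⁻¹, (d2 c X₁ X₂ y z)⁻¹}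
  have m1 : X₁ ∈ B := hB _ (by simp)
  have m2 : X₂ ∈ B := hB _ (by simp)
  have m3 : y ∈ B := hB _ (by simp)
  have m4 : z ∈ B := hB _ (by simp)
  have m5 : V⁻¹ ∈ B := hB _ (by simp)
  have m6 : (d2 c X₁ X₂ y z)⁻¹ ∈ B := hB _ (by simp)
  have j1 : vF c (e ⟨X₁, m1⟩) (e ⟨X₂, m2⟩) (e ⟨y, m3⟩) (e ⟨z, m4⟩) = 0 := by
    rw [← map_vF]
    have : vF c (⟨X₁, m1⟩ : B) ⟨X₂, m2⟩ ⟨y, m3⟩ ⟨z, m4⟩ = 0 := by
      apply Subtype.ext
      have h7 := map_vF c B.val (⟨X₁, m1⟩ : B) ⟨X₂, m2⟩ ⟨y, m3⟩ ⟨z, m4⟩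
      change B.val (vF c (⟨X₁, m1⟩ : B) ⟨X₂, m2⟩ ⟨y, m3⟩ ⟨z, m4⟩) = 0
      rw [h7]
      exact k6
    rw [this, map_zero]
  have j2 : d2 c (e ⟨X₁, m1⟩) (e ⟨X₂, m2⟩) (e ⟨y, m3⟩) (e ⟨z, m4⟩) ≠ 0 := by
    rw [← map_d2]
    intro h7
    have h8 : (d2 c (⟨X₁, m1⟩ : B) ⟨X₂, m2⟩ ⟨y, m3⟩ ⟨z, m4⟩) * ⟨_, m6⟩ = 1 := by
      apply Subtype.ext
      have h7 := map_d2 c B.val (⟨X₁, m1⟩ : B) ⟨X₂, m2⟩ ⟨y, m3⟩ ⟨z, m4⟩
      change B.val (d2 c (⟨X₁, m1⟩ : B) ⟨X₂, m2⟩ ⟨y, m3⟩ ⟨z, m4⟩) * (d2 c X₁ X₂ y z)⁻¹ = 1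
      rw [h7]
      exact mul_inv_cancel₀ k5
    have h9 := congrArg e h8
    rw [map_mul, h7, zero_mul, map_one] at h9
    exact zero_ne_one h9
  have hcomp : ∀ f : MvPolynomial (Fin 2) K, e (MvPolynomial.aeval ![(⟨y, m3⟩ : B), ⟨z, m4⟩] f) =
      MvPolynomial.eval ![e ⟨y, m3⟩, e ⟨z, m4⟩] f := by
    intro f
    rw [← MvPolynomial.coe_aeval_eq_eval]
    have : (e.comp (MvPolynomial.aeval ![(⟨y, m3⟩ : B), ⟨z, m4⟩])) =
        MvPolynomial.aeval ![e ⟨y, m3⟩, e ⟨z, m4⟩] := by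
      apply MvPolynomial.algHom_ext
      intro i
      fin_cases i <;> simp
    exact congrArg (fun g : MvPolynomial (Fin 2) K →ₐ[K] K => g f) this
  have hval : ∀ f : MvPolynomial (Fin 2) K,
      B.val (MvPolynomial.aeval ![(⟨y, m3⟩ : B), ⟨z, m4⟩] f) = MvPolynomial.aeval ![y, z] f := by
    intro f
    have : (B.val.comp (MvPolynomial.aeval ![(⟨y, m3⟩ : B), ⟨z, m4⟩])) =
        MvPolynomial.aeval ![y, z] := by
      apply MvPolynomial.algHom_ext
      intro i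
      fin_cases i <;> simp
    exact congrArg (fun g : MvPolynomial (Fin 2) K →ₐ[K] RatFunc K => g f) this
  have j3 : MvPolynomial.eval ![e ⟨y, m3⟩, e ⟨z, m4⟩] R.leadingCoeff *
      MvPolynomial.eval ![e ⟨y, m3⟩, e ⟨z, m4⟩] P3 ≠ 0 := by
    rw [← hcomp, ← hcomp, ← map_mul]
    intro h7
    have h8 : (MvPolynomial.aeval ![(⟨y, m3⟩ : B), ⟨z, m4⟩] R.leadingCoeff *
        MvPolynomial.aeval ![(⟨y, m3⟩ : B), ⟨z, m4⟩] P3) * ⟨_, m5⟩ = 1 := by
      apply Subtype.ext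
      change (B.val (MvPolynomial.aeval ![(⟨y, m3⟩ : B), ⟨z, m4⟩] R.leadingCoeff) *
        B.val (MvPolynomial.aeval ![(⟨y, m3⟩ : B), ⟨z, m4⟩] P3)) * V⁻¹ = 1
      rw [hval, hval]
      exact mul_inv_cancel₀ k4
    have h9 := congrArg e h8
    rw [map_mul, h7, zero_mul, map_one] at h9
    exact zero_ne_one h9
  have j4 : pof c 3 (e ⟨y, m3⟩) (e ⟨z, m4⟩) ≠ 0 := by
    rw [← hP3e]
    exact right_ne_zero_of_mul j3
  -- the conic
  set φ : Polynomial K := R.map (MvPolynomial.eval ![e ⟨y, m3⟩, e ⟨z, m4⟩]) with hφ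
  have hφ0 : φ ≠ 0 := by
    intro h
    have := congrArg (fun f : Polynomial K => f.coeff R.natDegree) h
    simp only [hφ, Polynomial.coeff_map, Polynomial.coeff_zero] at this
    exact left_ne_zero_of_mul j3 this
  obtain ⟨x₁, x₂, g1, g2⟩ := conic_pts2 c j1 j4 j2 hφ0
  refine ⟨x₁, x₂, _, _, g1, ?_⟩
  have := MvPolynomial.eval_eq_eval_mv_eval' ![e ⟨y, m3⟩, e ⟨z, m4⟩] x₂ ρ
  have h8 : (Fin.cons x₂ ![e ⟨y, m3⟩, e ⟨z, m4⟩] : Fin 3 → K) =
      ![x₂, e ⟨y, m3⟩, e ⟨z, m4⟩] := rfl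
  rw [h8] at this
  rw [this]
  exact g2

end kp

section gauss

/-- an irreducible polynomial and a polynomial which is not a multiple -/
theorem gauss {R : Type*} [CommRing R] [IsDomain R] [UniqueFactorizationMonoid R]
    {f g : Polynomial R} (hf : Irreducible f) (hd : f.natDegree ≠ 0) (h : ¬ f ∣ g) :
    ∃ (a b : Polynomial R) (ρ : R), ρ ≠ 0 ∧ f * a + g * b = Polynomial.C ρ := by
  classical
  let _ : GCDMonoid R := UniqueFactorizationMonoid.toGCDMonoid R
  set L := FractionRing R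
  have hp : f.IsPrimitive := hf.isPrimitive hd
  have hf' : Irreducible (f.map (algebraMap R L)) :=
    (hp.irreducible_iff_irreducible_map_fraction_map (K := L)).1 hf
  have hg' : ¬ f.map (algebraMap R L) ∣ g.map (algebraMap R L) := fun h' =>
    h (hp.dvd_of_fraction_map_dvd_fraction_map h')
  have hcop : IsCoprime (f.map (algebraMap R L)) (g.map (algebraMap R L)) :=
    (hf'.coprime_iff_not_dvd).2 hg'
  obtain ⟨a, b, -, -, hab⟩ := Polynomial.exists_mul_add_mul_eq_C_resultant f g le_rfl le_rfl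
    (Or.inl hd)
  refine ⟨a, b, _, fun h0 => ?_, hab⟩
  have h1 := Polynomial.resultant_ne_zero _ _ hcop
  apply h1
  have h2 := Polynomial.resultant_map_map f g f.natDegree g.natDegree (algebraMap R L)
  rw [Polynomial.natDegree_map_eq_of_injective (IsFractionRing.injective R L),
    Polynomial.natDegree_map_eq_of_injective (IsFractionRing.injective R L), h2, h0, map_zero]

end gauss

end Pool.Agent.Y720.MZ
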