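import Pool.Agent.Y720.WG.T7

/-!
# Rational points on conic bundles over the plane: the conditions (helper720)
-/

set_option autoImplicit false
set_option linter.unusedVariables false
set_option linter.unusedSectionVars false

open WeierstrassCurve Filter Topology

namespace Pool.Agent.Y720.MZ

section dsc

variable {R : Type*} [CommRing R]

lemma dq_eq' (w q₁ q₂ q₃ q₄ : R) : dq w q₁ q₂ q₃ q₄ = dc (w ^ 2) q₁ q₂ q₃ q₄ := by
  rw [dc, dq, rb, rc]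

lemma dc_weight (g a₀ a₁ a₂ a₃ a₄ : R) :
    dc (g ^ 4 * a₀) (g ^ 3 * a₁) (g ^ 2 * a₂) (g * a₃) a₄ = g ^ 12 * dc a₀ a₁ a₂ a₃ a₄ := by
  rw [dc, dc, dsc, dsc]; ring

def Cb.t0 (θ : Cb R) : R := θ.a ^ 2 - 4 * (θ.g1 * θ.d0)

def Cb.t1 (θ : Cb R) : R := 2 * θ.a * θ.b - 4 * (θ.g1 * θ.d1 + θ.g2 * θ.d0)

def Cb.t2 (θ : Cb R) : R := θ.b ^ 2 + 2 * θ.a * θ.c - 4 * (θ.g1 * θ.d2 + θ.g2 * θ.d1)

def Cb.t3 (θ : Cb R) : R := 2 * θ.b * θ.c - 4 * (θ.g1 * θ.d3 + θ.g2 * θ.d2)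

def Cb.t4 (θ : Cb R) : R := θ.c ^ 2 - 4 * (θ.g2 * θ.d3)

lemma Cb.D_eq (θ : Cb R) : θ.D = θ.g2 ^ 12 * dc θ.t0 θ.t1 θ.t2 θ.t3 θ.t4 := by
  have h := dc_shift (-θ.g1) (θ.g2 ^ 4 * θ.t0) (θ.g2 ^ 3 * θ.t1) (θ.g2 ^ 2 * θ.t2)
    (θ.g2 * θ.t3) θ.t4
  rw [dc_weight] at h
  rw [← h, Cb.D, dq_eq']
  congr 1
  · simp only [Cb.A, Cb.t0, Cb.t1, Cb.t2, Cb.t3, Cb.t4]; ring
  · simp only [Cb.q1, Cb.A, Cb.A1, Cb.B, Cb.t0, Cb.t1, Cb.t2, Cb.t3, Cb.t4]; ring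
  · simp only [Cb.q2, Cb.A, Cb.A1, Cb.B1, Cb.t0, Cb.t1, Cb.t2, Cb.t3, Cb.t4]; ring
  · simp only [Cb.q3, Cb.A1, Cb.B2, Cb.t0, Cb.t1, Cb.t2, Cb.t3, Cb.t4]; ring
  · simp only [Cb.q4, Cb.t4]; ring

/-- a multiple of a cubic -/
def Cb.smul (l : R) (θ : Cb R) : Cb R :=
  ⟨l * θ.g1, l * θ.g2, l * θ.a, l * θ.b, l * θ.c, l * θ.d0, l * θ.d1, l * θ.d2, l * θ.d3⟩

lemma Cb.smul_D (l : R) (θ : Cb R) : (θ.smul l).D =
    (l * θ.g2) ^ 12 * ((l ^ 2) ^ 6 * dc θ.t0 θ.t1 θ.t2 θ.t3 θ.t4) := by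
  have e0 : (θ.smul l).t0 = l ^ 2 * θ.t0 := by simp only [Cb.smul, Cb.t0]; ring
  have e1 : (θ.smul l).t1 = l ^ 2 * θ.t1 := by simp only [Cb.smul, Cb.t1]; ring
  have e2 : (θ.smul l).t2 = l ^ 2 * θ.t2 := by simp only [Cb.smul, Cb.t2]; ring
  have e3 : (θ.smul l).t3 = l ^ 2 * θ.t3 := by simp only [Cb.smul, Cb.t3]; ring
  have e4 : (θ.smul l).t4 = l ^ 2 * θ.t4 := by simp only [Cb.smul, Cb.t4]; ring
  have e5 : (θ.smul l).g2 = l * θ.g2 := rfl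
  rw [Cb.D_eq, e0, e1, e2, e3, e4, e5, dc_smul]

end dsc

section poly

variable {K : Type*} [Field K]

/-- the polynomial -/
noncomputable def polyF (c : Fin 6 → Fin 10 → K) : MvPolynomial (Fin 4) K :=
  vF c (MvPolynomial.X 0) (MvPolynomial.X 1) (MvPolynomial.X 2) (MvPolynomial.X 3)

lemma polyF_eval (c : Fin 6 → Fin 10 → K) (v : Fin 4 → K) :
    MvPolynomial.eval v (polyF c) = vF c (v 0) (v 1) (v 2) (v 3) := by
  rw [← MvPolynomial.coe_aeval_eq_eval, polyF]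
  change (MvPolynomial.aeval v : MvPolynomial (Fin 4) K →ₐ[K] K) _ = _
  rw [map_vF]
  simp

/-- the tangents polynomial -/
noncomputable def tanPol (e : Fin 10 → K) : Polynomial K :=
  (.C (e 3) + .C (e 4) * .X + .C (e 5) * .X ^ 2) ^ 2 -
    4 * ((.C (e 1) + .C (e 2) * .X) *
      (.C (e 6) + .C (e 7) * .X + .C (e 8) * .X ^ 2 + .C (e 9) * .X ^ 3))

/-- the flex condition -/
def flexv {R : Type*} [CommRing R] (e : Fin 10 → R) : R :=
  e 3 * e 2 ^ 2 - e 4 * e 1 * e 2 + e 5 * e 1 ^ 2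

/-- the cubic part at the tangent direction -/
def cubv {R : Type*} [CommRing R] (e : Fin 10 → R) : R :=
  e 6 * e 2 ^ 3 - e 7 * e 2 ^ 2 * e 1 + e 8 * e 2 * e 1 ^ 2 - e 9 * e 1 ^ 3

lemma cof_zero (c : Fin 6 → Fin 10 → K) (k : Fin 10) : cof c k (0 : K) 0 = c 0 k := by
  unfold cof
  rw [Finset.sum_eq_single 0]
  · simp [mx]
  · intro i _ hi
    have : mx (0 : K) 0 i = 0 := by
      fin_cases i <;> simp [mx] at hi ⊢
    rw [this, mul_zero]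
  · intro h; exact absurd (Finset.mem_univ _) h

lemma tanPol_eq (e : Fin 10 → K) : tanPol e = qpol
    (Cb.t0 ⟨e 1, e 2, e 3, e 4, e 5, e 6, e 7, e 8, e 9⟩)
    (Cb.t1 ⟨e 1, e 2, e 3, e 4, e 5, e 6, e 7, e 8, e 9⟩)
    (Cb.t2 ⟨e 1, e 2, e 3, e 4, e 5, e 6, e 7, e 8, e 9⟩)
    (Cb.t3 ⟨e 1, e 2, e 3, e 4, e 5, e 6, e 7, e 8, e 9⟩)
    (Cb.t4 ⟨e 1, e 2, e 3, e 4, e 5, e 6, e 7, e 8, e 9⟩) := by
  simp only [tanPol, qpol, Cb.t0, Cb.t1, Cb.t2, Cb.t3, Cb.t4, map_sub, map_mul, map_add, map_pow,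
    map_ofNat]
  ring

/-- the values of the coefficients -/
lemma conic_pt (c : Fin 6 → Fin 10 → K) (h0 : c 0 0 = 0) (h1 : c 1 0 = 0) (h2 : c 2 0 = 1)
    (h3 : c 3 0 ≠ 0) {M : Type*} [Field M] [Algebra K M] {x₁ x₂ : M} (hx : x₁ ≠ 0)
    (hc : cof c 0 x₁ x₂ = 0) :
    ∃ Q : M, Q ≠ 0 ∧ ∀ k, Polynomial.aeval (x₂ / x₁) (ch c k) = Q * cof c k x₁ x₂ := by
  have h3' : algebraMap K M (c 3 0) ≠ 0 := by
    intro h
    exact h3 ((algebraMap K M).injective (by rw [h, map_zero]))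
  have e1 : cof c 0 x₁ x₂ = x₂ + algebraMap K M (c 3 0) * x₁ ^ 2 +
      algebraMap K M (c 4 0) * (x₁ * x₂) + algebraMap K M (c 5 0) * x₂ ^ 2 := by
    unfold cof
    simp only [Fin.sum_univ_succ, Fin.sum_univ_zero]
    simp [mx, h0, h1, h2, Fin.succ]
    ring
  rw [e1] at hc
  have hx2 : x₂ ≠ 0 := by
    intro h
    rw [h] at hc
    have : algebraMap K M (c 3 0) * x₁ ^ 2 = 0 := by linear_combination hc
    exact (mul_ne_zero h3' (pow_ne_zero 2 hx)) this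
  have e2 : Polynomial.aeval (x₂ / x₁) (qh c) = -x₂ / x₁ ^ 2 := by
    have e3 : Polynomial.aeval (x₂ / x₁) (qh c) = algebraMap K M (c 3 0) +
        algebraMap K M (c 4 0) * (x₂ / x₁) + algebraMap K M (c 5 0) * (x₂ / x₁) ^ 2 := by
      simp [qh]
    rw [e3]
    field_simp
    linear_combination hc
  have hq : Polynomial.aeval (x₂ / x₁) (qh c) ≠ 0 := by
    rw [e2]
    exact div_ne_zero (neg_ne_zero.2 hx2) (pow_ne_zero 2 hx)
  refine ⟨Polynomial.aeval (x₂ / x₁) (qh c) ^ 2, pow_ne_zero 2 hq, fun k => ?_⟩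
  rw [ch_conic c (Polynomial.aeval (x₂ / x₁)) hq k, Polynomial.aeval_X, e2]
  congr 2
  · field_simp
  · field_simp

lemma ch_at_zero (c : Fin 6 → Fin 10 → K) (h3 : c 3 0 ≠ 0) (k : Fin 10) :
    Polynomial.aeval (0 : K) (ch c k) = c 3 0 ^ 2 * c 0 k := by
  have e2 : Polynomial.aeval (0 : K) (qh c) = c 3 0 := by
    simp [qh]
  rw [ch_conic c (Polynomial.aeval (0 : K)) (by rw [e2]; exact h3) k, Polynomial.aeval_X, e2,
    ← cof_zero c k]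
  congr 2 <;> simp

lemma th3_D (c : Fin 6 → Fin 10 → K) (h3 : c 3 0 ≠ 0) (hg : c 0 2 ≠ 0)
    (hsep : (tanPol (c 0)).Separable) (hdeg : 3 ≤ (tanPol (c 0)).natDegree) :
    (th3 c).D ≠ 0 := by
  intro h
  set θ₀ : Cb K := ⟨c 0 1, c 0 2, c 0 3, c 0 4, c 0 5, c 0 6, c 0 7, c 0 8, c 0 9⟩ with hθ₀
  rw [tanPol_eq] at hsep hdeg
  have k0 := dc_ne_zero hsep hdeg
  have e1 : ∀ k, Polynomial.evalRingHom (0 : K) (ch c k) = c 3 0 ^ 2 * c 0 k := by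
    intro k
    rw [Polynomial.coe_evalRingHom, ← Polynomial.coe_aeval_eq_eval]
    exact ch_at_zero c h3 k
  have e2 : (th3 c).map (Polynomial.evalRingHom (0 : K)) = θ₀.smul (c 3 0 ^ 2) := by
    simp only [th3, Cb.map, Cb.smul, e1, hθ₀]
  have e3 : ((th3 c).map (Polynomial.evalRingHom (0 : K))).D = 0 := by
    rw [Cb.map_D, h, map_zero]
  rw [e2, Cb.smul_D] at e3
  exact (mul_ne_zero (pow_ne_zero 12 (mul_ne_zero (pow_ne_zero 2 h3) hg))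
      (mul_ne_zero (pow_ne_zero 6 (pow_ne_zero 2 (pow_ne_zero 2 h3))) k0)) e3

variable [NumberField K]

theorem density (c : Fin 6 → Fin 10 → K) (h0 : c 0 0 = 0) (h1 : c 1 0 = 0) (h2 : c 2 0 = 1)
    (h3 : c 3 0 ≠ 0) (hirr : Irreducible (polyF c)) (hg : c 0 2 ≠ 0) (hfl : flexv (c 0) ≠ 0)
    (hsep : (tanPol (c 0)).Separable) (hdeg : 3 ≤ (tanPol (c 0)).natDegree)
    (hdir : ∃ x₁ x₂ : AlgebraicClosure K, x₁ ≠ 0 ∧ cof c 0 x₁ x₂ = 0 ∧
      cof c 1 x₁ x₂ * algebraMap K _ (c 0 2) ≠ algebraMap K _ (c 0 1) * cof c 2 x₁ x₂)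
    (hflex : ∃ x₁ x₂ : AlgebraicClosure K, x₁ ≠ 0 ∧ cof c 0 x₁ x₂ = 0 ∧ cof c 2 x₁ x₂ ≠ 0 ∧
      flexv (fun k => cof c k x₁ x₂) = 0 ∧ cubv (fun k => cof c k x₁ x₂) ≠ 0)
    {G : MvPolynomial (Fin 4) K} (hG : ∀ v : Fin 4 → K, MvPolynomial.eval v (polyF c) = 0 →
      MvPolynomial.eval v G = 0) : polyF c ∣ G := by
  classical
  -- the conditions over the conic
  have hA : (th3 c).A ≠ 0 := by
    intro h
    have k1 : Polynomial.aeval (0 : K) (th3 c).A = (c 3 0 ^ 2) ^ 3 * flexv (c 0) := by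
      have : (th3 c).A = ch c 3 * ch c 2 ^ 2 - ch c 4 * ch c 1 * ch c 2 + ch c 5 * ch c 1 ^ 2 := rfl
      rw [this]
      simp only [map_add, map_sub, map_mul, map_pow, ch_at_zero c h3, flexv]
      ring
    rw [h, map_zero] at k1
    exact (mul_ne_zero (pow_ne_zero 3 (pow_ne_zero 2 h3)) hfl) k1.symm
  have hD : (th3 c).D ≠ 0 := th3_D c h3 hg hsep hdeg
  have hμ : ∀ ρ : K, (th3 c).g1 + Polynomial.C ρ * (th3 c).g2 ≠ 0 := by
    intro ρ h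
    change ch c 1 + Polynomial.C ρ * ch c 2 = 0 at h
    obtain ⟨x₁, x₂, hx, hc, hne⟩ := hdir
    obtain ⟨Q, hQ, hk⟩ := conic_pt c h0 h1 h2 h3 hx hc
    have k1 := congrArg (Polynomial.aeval (x₂ / x₁)) h
    rw [map_add, map_mul, map_zero, hk, hk, Polynomial.aeval_C] at k1
    have k2 : cof c 1 x₁ x₂ + algebraMap K _ ρ * cof c 2 x₁ x₂ = 0 := by
      have : Q * (cof c 1 x₁ x₂ + algebraMap K _ ρ * cof c 2 x₁ x₂) = 0 := by
        linear_combination k1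
      exact (mul_eq_zero.1 this).resolve_left hQ
    have k3 := congrArg (Polynomial.aeval (0 : K)) h
    rw [map_add, map_mul, map_zero, ch_at_zero c h3, ch_at_zero c h3, Polynomial.aeval_C] at k3
    have k4 : c 0 1 + ρ * c 0 2 = 0 := by
      have : c 3 0 ^ 2 * (c 0 1 + ρ * c 0 2) = 0 := by
        rw [Algebra.algebraMap_self, RingHom.id_apply] at k3
        linear_combination k3
      exact (mul_eq_zero.1 this).resolve_left (pow_ne_zero 2 h3)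
    have k5 := congrArg (algebraMap K (AlgebraicClosure K)) k4
    rw [map_add, map_mul, map_zero] at k5
    apply hne
    linear_combination algebraMap K (AlgebraicClosure K) (c 0 2) * k2 -
      cof c 2 x₁ x₂ * k5
  obtain ⟨x₁, x₂, hx, hc, hn2, hf0, hb0⟩ := hflex
  obtain ⟨Q, hQ, hk⟩ := conic_pt c h0 h1 h2 h3 hx hc
  have hA0 : Polynomial.aeval (x₂ / x₁) (th3 c).A = 0 := by
    have : (th3 c).A = ch c 3 * ch c 2 ^ 2 - ch c 4 * ch c 1 * ch c 2 + ch c 5 * ch c 1 ^ 2 := rfl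
    rw [this]
    simp only [map_add, map_sub, map_mul, map_pow, hk]
    simp only [flexv] at hf0
    linear_combination Q ^ 3 * hf0
  have hB0 : Polynomial.aeval (x₂ / x₁) (th3 c).B ≠ 0 := by
    have : (th3 c).B = ch c 6 * ch c 2 ^ 3 - ch c 7 * ch c 2 ^ 2 * ch c 1 +
      ch c 8 * ch c 2 * ch c 1 ^ 2 - ch c 9 * ch c 1 ^ 3 := rfl
    rw [this]
    simp only [map_add, map_sub, map_mul, map_pow, hk]
    intro h
    apply mul_ne_zero (pow_ne_zero 4 hQ) hb0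
    simp only [cubv]
    linear_combination h
  have hg0 : Polynomial.aeval (x₂ / x₁) (th3 c).g2 ≠ 0 := by
    change Polynomial.aeval (x₂ / x₁) (ch c 2) ≠ 0
    rw [hk]
    exact mul_ne_zero hQ hn2
  -- the divisibility
  by_contra hnd
  have hf : Irreducible (MvPolynomial.finSuccEquiv K 3 (polyF c)) :=
    (MulEquiv.irreducible_iff (MvPolynomial.finSuccEquiv K 3).toMulEquiv).2 hirr
  have hfd : (MvPolynomial.finSuccEquiv K 3 (polyF c)).natDegree ≠ 0 := by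
    intro hd
    obtain ⟨r, hr⟩ := Polynomial.natDegree_eq_zero.1 hd
    have e1 : ∀ t : K, MvPolynomial.eval (Fin.cons t (0 : Fin 3 → K)) (polyF c) =
        MvPolynomial.eval 0 r := by
      intro t
      rw [MvPolynomial.eval_eq_eval_mv_eval', ← hr, Polynomial.map_C, Polynomial.eval_C]
    have e4 : ∀ t : K, vF c t 0 0 0 = c 3 0 * t ^ 2 := by
      intro t
      rw [vF_cof]
      rw [Finset.sum_eq_single 0]
      · unfold cof
        simp only [Fin.sum_univ_succ, Fin.sum_univ_zero]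
        simp [mx, my, h0, h1, h2, Fin.succ]
      · intro k _ hk
        have : my (0 : K) 0 k = 0 := by
          fin_cases k <;> simp [my] at hk ⊢
        rw [this, mul_zero]
      · intro h; exact absurd (Finset.mem_univ _) h
    have e2 : MvPolynomial.eval 0 r = 0 := by
      rw [← e1 0, polyF_eval]
      change vF c (0 : K) 0 0 0 = 0
      rw [e4]; ring
    have e3 : MvPolynomial.eval 0 r = c 3 0 := by
      rw [← e1 1, polyF_eval]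
      change vF c (1 : K) 0 0 0 = c 3 0
      rw [e4]; ring
    exact h3 (e3.symm.trans e2)
  have hgd : ¬ MvPolynomial.finSuccEquiv K 3 (polyF c) ∣ MvPolynomial.finSuccEquiv K 3 G :=
    fun h => hnd ((map_dvd_iff (MvPolynomial.finSuccEquiv K 3)).1 h)
  obtain ⟨a, b, ρ, hρ, hab⟩ := gauss hf hfd hgd
  obtain ⟨z₁, z₂, y₁, y₂, k1, k2⟩ := kpoint c h0 h1 h2 h3 hA hA0 hB0 hg0 hD hμ hρ
  have k0 : MvPolynomial.eval ![z₁, z₂, y₁, y₂] (polyF c) = 0 := by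
    rw [polyF_eval]; exact k1
  have k3 := hG _ k0
  have k4 := congrArg (fun f => Polynomial.eval z₁ (f.map (MvPolynomial.eval ![z₂, y₁, y₂]))) hab
  simp only [Polynomial.map_add, Polynomial.map_mul, Polynomial.eval_add, Polynomial.eval_mul,
    Polynomial.map_C, Polynomial.eval_C] at k4
  have k5 : ∀ f, Polynomial.eval z₁ ((MvPolynomial.finSuccEquiv K 3 f).map
      (MvPolynomial.eval ![z₂, y₁, y₂])) = MvPolynomial.eval ![z₁, z₂, y₁, y₂] f :=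
    fun f => (MvPolynomial.eval_eq_eval_mv_eval' ![z₂, y₁, y₂] z₁ f).symm
  rw [k5, k5, k0, k3, zero_mul, zero_mul, add_zero] at k4
  exact k2 k4.symm

end poly

end Pool.Agent.Y720.MZ
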