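import Pool.Agent.Y720.WG.T6

/-!
# An example of a conic bundle over the plane (helper720)
-/

set_option autoImplicit false
set_option linter.unusedVariables false
set_option linter.unusedSectionVars false

namespace Pool.Agent.Y720.MZ

/-- a quadratic polynomial which is irreducible -/
theorem irr_ex {K : Type*} [Field K] (F : MvPolynomial (Fin 4) K)
    (hF : F = MvPolynomial.X 0 ^ 2 + (MvPolynomial.X 2 - MvPolynomial.X 2 ^ 2) * MvPolynomial.X 0 +
      (MvPolynomial.X 1 + MvPolynomial.X 3 + MvPolynomial.X 2 ^ 2 +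
        MvPolynomial.X 2 * MvPolynomial.X 3 ^ 2 + MvPolynomial.X 1 ^ 2 * MvPolynomial.X 2 ^ 3)) :
    Irreducible F := by
  classical
  set b : MvPolynomial (Fin 3) K := MvPolynomial.X 1 - MvPolynomial.X 1 ^ 2 with hb
  set d : MvPolynomial (Fin 3) K := MvPolynomial.X 0 + MvPolynomial.X 2 + MvPolynomial.X 1 ^ 2 +
    MvPolynomial.X 1 * MvPolynomial.X 2 ^ 2 + MvPolynomial.X 0 ^ 2 * MvPolynomial.X 1 ^ 3 with hd
  have e0 : MvPolynomial.finSuccEquiv K 3 (MvPolynomial.X 0) = Polynomial.X :=
    MvPolynomial.finSuccEquiv_X_zero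
  have e1 : MvPolynomial.finSuccEquiv K 3 (MvPolynomial.X 1) =
    Polynomial.C (MvPolynomial.X 0) := MvPolynomial.finSuccEquiv_X_succ (j := 0)
  have e2 : MvPolynomial.finSuccEquiv K 3 (MvPolynomial.X 2) =
    Polynomial.C (MvPolynomial.X 1) := MvPolynomial.finSuccEquiv_X_succ (j := 1)
  have e3 : MvPolynomial.finSuccEquiv K 3 (MvPolynomial.X 3) =
    Polynomial.C (MvPolynomial.X 2) := MvPolynomial.finSuccEquiv_X_succ (j := 2)
  have h1 : MvPolynomial.finSuccEquiv K 3 F =
      Polynomial.X ^ 2 + Polynomial.C b * Polynomial.X + Polynomial.C d := by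
    rw [hF]
    simp only [map_add, map_sub, map_mul, map_pow, e0, e1, e2, e3, hb, hd]
  have h2 : (MvPolynomial.finSuccEquiv K 3 F).natDegree = 2 := by
    rw [h1]; compute_degree!
  have h3 : (MvPolynomial.finSuccEquiv K 3 F).Monic := by
    rw [h1]; monicity!
  refine (MulEquiv.irreducible_iff (MvPolynomial.finSuccEquiv K 3).toMulEquiv).1 ?_
  change Irreducible (MvPolynomial.finSuccEquiv K 3 F)
  rw [h3.irreducible_iff_roots_eq_zero_of_degree_le_three (by omega) (by omega)]
  rw [Multiset.eq_zero_iff_forall_notMem]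
  intro r hr
  rw [Polynomial.mem_roots h3.ne_zero, Polynomial.IsRoot, h1] at hr
  simp only [Polynomial.eval_add, Polynomial.eval_mul, Polynomial.eval_pow, Polynomial.eval_X,
    Polynomial.eval_C] at hr
  have h4 := congrArg (MvPolynomial.aeval (![Polynomial.X, 0, 0] : Fin 3 → Polynomial K)) hr
  simp only [hb, hd, map_add, map_sub, map_mul, map_pow, MvPolynomial.aeval_X, map_zero] at h4
  set s := MvPolynomial.aeval (![Polynomial.X, 0, 0] : Fin 3 → Polynomial K) r with hs
  have h5 : s ^ 2 = -Polynomial.X := by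
    simp at h4
    linear_combination h4
  have h6 := congrArg Polynomial.natDegree h5
  rw [Polynomial.natDegree_pow, Polynomial.natDegree_neg, Polynomial.natDegree_X] at h6
  omega

end Pool.Agent.Y720.MZ
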